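import Mathlib
import Pool.Agent.Lib.P4a7640D.Sieve
import Pool.Agent.Lib.P4a7640D.LogSieve

/-!
# The sieve in residue classes

Adapted from `P4a7640D.Crt`, `P4a7640D.MeanBlocks`, `P4a7640D.Sieve`.
-/

open Finset

namespace Pool.Agent.Lib.P4a7640T

open Pool.Agent.Lib.P4a7640 Pool.Agent.Lib.P4a7640D

theorem base_count (x q c : ℕ) (hq : 0 < q) :
    |∑ n ∈ Icc 1 x, (if n ≡ c [MOD q] then (1:ℝ) else 0) - x / q| ≤ 1 := by
  have h1 : Icc 1 x = Ioc 0 x := by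
    ext n
    simp only [mem_Icc, mem_Ioc]
    omega
  rw [h1, sum_boole]
  have h2 := Nat.Ioc_filter_modEq_card 0 x hq c
  have h3 : (((#{n ∈ Ioc 0 x | n ≡ c [MOD q]} : ℕ) : ℤ) : ℝ) =
      ((max (⌊((x:ℚ) - c) / q⌋ - ⌊(((0:ℕ):ℚ) - c) / q⌋) 0 : ℤ) : ℝ) := by
    exact_mod_cast h2
  have hq' : (0:ℚ) < q := by exact_mod_cast hq
  have hmono : ⌊(((0:ℕ):ℚ) - c) / q⌋ ≤ ⌊((x:ℚ) - c) / q⌋ := by
    apply Int.floor_le_floor
    have : (0:ℚ) ≤ x := by positivity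
    push_cast
    gcongr
  rw [max_eq_left (by omega)] at h3
  have h4 : ((#{n ∈ Ioc 0 x | n ≡ c [MOD q]} : ℕ) : ℝ) =
      ((⌊((x:ℚ) - c) / q⌋ : ℤ) : ℝ) - ((⌊(((0:ℕ):ℚ) - c) / q⌋ : ℤ) : ℝ) := by
    have : (((#{n ∈ Ioc 0 x | n ≡ c [MOD q]} : ℕ) : ℤ) : ℝ) =
        ((#{n ∈ Ioc 0 x | n ≡ c [MOD q]} : ℕ) : ℝ) := by norm_cast
    rw [← this, h3]
    push_cast
    ring
  have a1 : ((⌊((x:ℚ) - c) / q⌋ : ℤ) : ℚ) ≤ ((x:ℚ) - c) / q := Int.floor_le _
  have a2 : ((x:ℚ) - c) / q < ((⌊((x:ℚ) - c) / q⌋ : ℤ) : ℚ) + 1 := Int.lt_floor_add_one _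
  have b1 : ((⌊(((0:ℕ):ℚ) - c) / q⌋ : ℤ) : ℚ) ≤ (((0:ℕ):ℚ) - c) / q := Int.floor_le _
  have b2 : (((0:ℕ):ℚ) - c) / q < ((⌊(((0:ℕ):ℚ) - c) / q⌋ : ℤ) : ℚ) + 1 :=
    Int.lt_floor_add_one _
  have e1 : ((x:ℚ) - c) / q - (((0:ℕ):ℚ) - c) / q = x / q := by
    push_cast
    ring
  have key : |((⌊((x:ℚ) - c) / q⌋ : ℤ) : ℚ) - ((⌊(((0:ℕ):ℚ) - c) / q⌋ : ℤ) : ℚ) - x / q| ≤ 1 := by
    rw [abs_le]
    constructor <;> linarith
  rw [h4]
  generalize ⌊((x:ℚ) - c) / q⌋ = A at key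
  generalize ⌊(((0:ℕ):ℚ) - c) / q⌋ = B at key
  have key' : (((|(A:ℚ) - (B:ℚ) - (x:ℚ) / (q:ℚ)| : ℚ)) : ℝ) ≤ ((1:ℚ) : ℝ) := by
    exact_mod_cast key
  push_cast at key'
  exact key'

theorem crt_two {q p : ℕ} (hco : Nat.Coprime q p) (hp : 0 < p) (c h : ℕ) :
    ∃ c', ∀ n, (n ≡ c [MOD q] ∧ p ∣ n + h) ↔ n ≡ c' [MOD q * p] := by
  obtain ⟨c', h1, h2⟩ := Nat.chineseRemainder hco c ((p - 1) * h)
  refine ⟨c', fun n => ?_⟩
  have h3 : p ∣ n + h ↔ n ≡ (p - 1) * h [MOD p] := by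
    have h4 : (p - 1) * h + h ≡ 0 [MOD p] := by
      have : (p - 1) * h + h = p * h := by
        obtain ⟨p', rfl⟩ : ∃ p', p = p' + 1 := ⟨p - 1, by omega⟩
        simp only [Nat.add_sub_cancel]
        ring
      rw [this]
      exact (Nat.modEq_zero_iff_dvd).2 (dvd_mul_right _ _)
    rw [← Nat.modEq_zero_iff_dvd]
    constructor
    · intro h5
      exact Nat.ModEq.add_right_cancel' h (h5.trans h4.symm)
    · intro h5
      exact (Nat.ModEq.add_right h h5).trans h4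
  rw [h3, ← Nat.modEq_and_modEq_iff_modEq_mul hco]
  constructor
  · rintro ⟨a, b⟩
    exact ⟨a.trans h1.symm, b.trans h2.symm⟩
  · rintro ⟨a, b⟩
    exact ⟨a.trans h1, b.trans h2⟩

theorem ind_eq_sum (H : Finset ℕ) {p : ℕ} (hH : ∀ h ∈ H, h < p) (n : ℕ) :
    (if ∃ h ∈ H, p ∣ n + h then (1:ℝ) else 0) = ∑ h ∈ H, if p ∣ n + h then (1:ℝ) else 0 := by
  by_cases h1 : ∃ h ∈ H, p ∣ n + h
  · rw [if_pos h1]
    obtain ⟨h0, hh0, hd⟩ := h1
    rw [sum_eq_single h0]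
    · rw [if_pos hd]
    · intro b hb hne
      rw [if_neg]
      intro hd'
      apply hne
      have e1 : n + b ≡ n + h0 [MOD p] :=
        ((Nat.modEq_zero_iff_dvd).2 hd').trans ((Nat.modEq_zero_iff_dvd).2 hd).symm
      have e2 : b ≡ h0 [MOD p] := Nat.ModEq.add_left_cancel' n e1
      exact Nat.ModEq.eq_of_lt_of_lt e2 (hH b hb) (hH h0 hh0)
    · intro hn
      exact absurd hh0 hn
  · rw [if_neg h1]
    symm
    apply sum_eq_zero
    intro h hh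
    rw [if_neg]
    intro hd
    exact h1 ⟨h, hh, hd⟩

theorem gen_count (H : Finset ℕ) (x : ℕ) (T : Finset ℕ) :
    (∀ p ∈ T, p.Prime) → (∀ p ∈ T, ∀ h ∈ H, h < p) → ∀ q c : ℕ, 0 < q →
    (∀ p ∈ T, Nat.Coprime q p) →
    |∑ n ∈ Icc 1 x, (if n ≡ c [MOD q] then (1:ℝ) else 0) *
        ∏ p ∈ T, (if ∃ h ∈ H, p ∣ n + h then (1:ℝ) else 0) -
      x / q * ∏ p ∈ T, ((H.card : ℝ) / p)| ≤ (H.card : ℝ) ^ T.card := by
  induction T using Finset.induction_on with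
  | empty =>
    intro _ _ q c hq _
    simpa using base_count x q c hq
  | @insert p T hpT ih =>
    intro hT hHT q c hq hco
    have hp : p.Prime := hT p (mem_insert_self _ _)
    have hp0 : (p:ℝ) ≠ 0 := by exact_mod_cast hp.ne_zero
    have hq0 : (q:ℝ) ≠ 0 := by exact_mod_cast hq.ne'
    have hcop : Nat.Coprime q p := hco p (mem_insert_self _ _)
    choose c' hc' using fun h => crt_two hcop hp.pos c h
    have hih : ∀ h ∈ H, |∑ n ∈ Icc 1 x, (if n ≡ c' h [MOD q * p] then (1:ℝ) else 0) *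
        ∏ p ∈ T, (if ∃ h ∈ H, p ∣ n + h then (1:ℝ) else 0) -
      x / ((q * p : ℕ) : ℝ) * ∏ p ∈ T, ((H.card : ℝ) / p)| ≤ (H.card : ℝ) ^ T.card := by
      intro h _
      refine ih (fun r hr => hT r (mem_insert_of_mem hr)) (fun r hr => hHT r (mem_insert_of_mem hr))
        (q * p) (c' h) (Nat.mul_pos hq hp.pos) ?_
      intro r hr
      refine Nat.Coprime.mul_left (hco r (mem_insert_of_mem hr)) ?_
      refine (Nat.coprime_primes hp (hT r (mem_insert_of_mem hr))).2 ?_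
      rintro rfl
      exact hpT hr
    have hsplit : ∑ n ∈ Icc 1 x, (if n ≡ c [MOD q] then (1:ℝ) else 0) *
        ∏ p ∈ insert p T, (if ∃ h ∈ H, p ∣ n + h then (1:ℝ) else 0) =
        ∑ h ∈ H, ∑ n ∈ Icc 1 x, (if n ≡ c' h [MOD q * p] then (1:ℝ) else 0) *
          ∏ p ∈ T, (if ∃ h ∈ H, p ∣ n + h then (1:ℝ) else 0) := by
      rw [sum_comm]
      refine sum_congr rfl fun n _ => ?_
      rw [prod_insert hpT, ind_eq_sum H (hHT p (mem_insert_self _ _)) n, ← mul_assoc, mul_sum,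
        sum_mul]
      refine sum_congr rfl fun h _ => ?_
      congr 1
      have h5 := hc' h n
      by_cases h6 : n ≡ c [MOD q]
      · by_cases h7 : p ∣ n + h
        · rw [if_pos h6, if_pos h7, if_pos (h5.1 ⟨h6, h7⟩), one_mul]
        · rw [if_neg h7, if_neg (fun h8 => h7 (h5.2 h8).2), mul_zero]
      · rw [if_neg h6, if_neg (fun h8 => h6 (h5.2 h8).1), zero_mul]
    have hmain : (x:ℝ) / q * ∏ p ∈ insert p T, ((H.card : ℝ) / p) =
        ∑ h ∈ H, x / ((q * p : ℕ) : ℝ) * ∏ p ∈ T, ((H.card : ℝ) / p) := by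
      rw [prod_insert hpT, sum_const, nsmul_eq_mul]
      push_cast
      field_simp
    rw [hsplit, hmain, ← sum_sub_distrib, card_insert_of_notMem hpT]
    calc |∑ h ∈ H, (∑ n ∈ Icc 1 x, (if n ≡ c' h [MOD q * p] then (1:ℝ) else 0) *
          ∏ p ∈ T, (if ∃ h ∈ H, p ∣ n + h then (1:ℝ) else 0) -
          x / ((q * p : ℕ) : ℝ) * ∏ p ∈ T, ((H.card : ℝ) / p))|
        ≤ ∑ h ∈ H, |∑ n ∈ Icc 1 x, (if n ≡ c' h [MOD q * p] then (1:ℝ) else 0) *
          ∏ p ∈ T, (if ∃ h ∈ H, p ∣ n + h then (1:ℝ) else 0) -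
          x / ((q * p : ℕ) : ℝ) * ∏ p ∈ T, ((H.card : ℝ) / p)| := abs_sum_le_sum_abs _ _
      _ ≤ ∑ _h ∈ H, (H.card : ℝ) ^ T.card := sum_le_sum hih
      _ = (H.card : ℝ) ^ (T.card + 1) := by
          rw [sum_const, nsmul_eq_mul, pow_succ]
          ring

theorem crt_count_ap (H T : Finset ℕ) (hT : ∀ p ∈ T, p.Prime) (hHT : ∀ p ∈ T, ∀ h ∈ H, h < p)
    (x q c : ℕ) (hq : 0 < q) (hco : ∀ p ∈ T, Nat.Coprime q p) :
    |∑ n ∈ Icc 1 x, (if n ≡ c [MOD q] then (1:ℝ) else 0) *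
        ∏ p ∈ T, (if ∃ h ∈ H, p ∣ n + h then (1:ℝ) else 0) -
      x / q * ∏ p ∈ T, ((H.card : ℝ) / p)| ≤ (H.card : ℝ) ^ T.card :=
  gen_count H x T hT hHT q c hq hco

theorem mean_blocks_ap (H D : Finset ℕ) (J R x q a : ℕ) (hq : 0 < q)
    (hD : ∀ p ∈ D, p.Prime ∧ (∀ h ∈ H, h < p) ∧ (2 * H.card) ^ 2 ≤ p ∧ be p < J)
    (hco : ∀ p ∈ D, Nat.Coprime q p)
    (hx : 2 ^ (2 ^ (J + 2) * (R + 2)) ≤ x) (φ : ℕ → ℕ → ℝ) (hφ : ∀ j r, |φ j r| ≤ 2 ^ r) :
    |∑ n ∈ Icc 1 x, (if n ≡ a [MOD q] then (1:ℝ) else 0) *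
        ∏ j ∈ range J, (∑ r ∈ range (R + (J - 1 - j) + 2),
        φ j r * ((KK H (D.filter fun p => be p = j) n).choose r : ℝ)) -
      x / q * ∏ j ∈ range J, (∑ r ∈ range (R + (J - 1 - j) + 2),
        φ j r * esy (fun p => (H.card : ℝ) / p) (D.filter fun p => be p = j) r)| ≤
      (x : ℝ) ^ ((3:ℝ) / 4) := by
  classical
  set m := H.card with hm
  set Rj : ℕ → ℕ := fun j => R + (J - 1 - j) + 1 with hRj
  set φ' : ℕ → ℕ → ℝ := fun j r => if r ≤ Rj j then φ j r else 0 with hφ'def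
  have hφ' : ∀ j r, Rj j < r → φ' j r = 0 := by
    intro j r hr
    show (if r ≤ Rj j then φ j r else 0) = 0
    rw [if_neg (by omega)]
  set c : Finset ℕ → ℝ := fun T => ∏ j ∈ range J, φ' j (T.filter fun p => be p = j).card with hc
  have e1 : ∀ w : ℕ → ℝ, ∏ j ∈ range J, (∑ r ∈ range (R + (J - 1 - j) + 2),
      φ j r * esy w (D.filter fun p => be p = j) r) =
      ∑ T ∈ D.powerset, c T * ∏ p ∈ T, w p := by
    intro w
    rw [← prod_blocks w be D J (fun p hp => (hD p hp).2.2.2) Rj φ' hφ']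
    refine prod_congr rfl fun j _ => ?_
    have h1 : R + (J - 1 - j) + 2 = Rj j + 1 := rfl
    rw [h1]
    refine sum_congr rfl fun r hr => ?_
    have h2 : r ≤ Rj j := by
      have := mem_range.1 hr
      omega
    show φ j r * _ = (if r ≤ Rj j then φ j r else 0) * _
    rw [if_pos h2]
  have e2 : ∀ n : ℕ, ∏ j ∈ range J, (∑ r ∈ range (R + (J - 1 - j) + 2),
      φ j r * ((KK H (D.filter fun p => be p = j) n).choose r : ℝ)) =
      ∑ T ∈ D.powerset, c T * ∏ p ∈ T, (if ∃ h ∈ H, p ∣ n + h then (1:ℝ) else 0) := by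
    intro n
    rw [← e1]
    refine prod_congr rfl fun j _ => sum_congr rfl fun r _ => ?_
    rw [esy_ind]
    rfl
  have e3 : ∑ n ∈ Icc 1 x, (if n ≡ a [MOD q] then (1:ℝ) else 0) *
        ∏ j ∈ range J, (∑ r ∈ range (R + (J - 1 - j) + 2),
        φ j r * ((KK H (D.filter fun p => be p = j) n).choose r : ℝ)) -
      x / q * ∏ j ∈ range J, (∑ r ∈ range (R + (J - 1 - j) + 2),
        φ j r * esy (fun p => (m : ℝ) / p) (D.filter fun p => be p = j) r) =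
      ∑ T ∈ D.powerset, c T * (∑ n ∈ Icc 1 x, (if n ≡ a [MOD q] then (1:ℝ) else 0) *
        ∏ p ∈ T, (if ∃ h ∈ H, p ∣ n + h then (1:ℝ) else 0) -
          x / q * ∏ p ∈ T, ((m : ℝ) / p)) := by
    rw [e1, sum_congr rfl fun n _ => by rw [e2 n, mul_sum], sum_comm, mul_sum, ← sum_sub_distrib]
    refine sum_congr rfl fun T _ => ?_
    have h9 : ∑ n ∈ Icc 1 x, (if n ≡ a [MOD q] then (1:ℝ) else 0) *
        (c T * ∏ p ∈ T, (if ∃ h ∈ H, p ∣ n + h then (1:ℝ) else 0)) =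
        c T * ∑ n ∈ Icc 1 x, (if n ≡ a [MOD q] then (1:ℝ) else 0) *
        ∏ p ∈ T, (if ∃ h ∈ H, p ∣ n + h then (1:ℝ) else 0) := by
      rw [mul_sum]
      refine sum_congr rfl fun n _ => ?_
      ring
    rw [h9]
    ring
  rw [e3]
  have hb : ∀ T ∈ D.powerset, |c T * (∑ n ∈ Icc 1 x, (if n ≡ a [MOD q] then (1:ℝ) else 0) *
        ∏ p ∈ T, (if ∃ h ∈ H, p ∣ n + h then (1:ℝ) else 0) -
          x / q * ∏ p ∈ T, ((m : ℝ) / p))| ≤
      |c T| * (m : ℝ) ^ T.card := by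
    intro T hT
    rw [mem_powerset] at hT
    rw [abs_mul]
    refine mul_le_mul_of_nonneg_left ?_ (abs_nonneg _)
    exact crt_count_ap H T (fun p hp => (hD p (hT hp)).1) (fun p hp => (hD p (hT hp)).2.1) x q a hq
      (fun p hp => hco p (hT hp))
  refine (abs_sum_le_sum_abs _ _).trans ((sum_le_sum hb).trans ?_)
  have hlev := level m D J R x (fun p hp => (hD p hp).1) (fun p hp => (hD p hp).2.2.1)
    (fun p hp => (hD p hp).2.2.2) hx
  refine le_trans ?_ hlev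
  rw [sum_filter]
  refine sum_le_sum fun T hT => ?_
  rw [mem_powerset] at hT
  by_cases hc' : ∀ j < J, (T.filter fun p => be p = j).card ≤ R + (J - 1 - j) + 1
  · rw [if_pos hc', mul_pow]
    refine mul_le_mul_of_nonneg_right ?_ (by positivity)
    have h1 : |c T| ≤ ∏ j ∈ range J, (2:ℝ) ^ (T.filter fun p => be p = j).card := by
      show |∏ j ∈ range J, φ' j (T.filter fun p => be p = j).card| ≤ _
      rw [abs_prod]
      refine prod_le_prod (fun j _ => abs_nonneg _) fun j _ => ?_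
      show |(if (T.filter fun p => be p = j).card ≤ Rj j then
        φ j (T.filter fun p => be p = j).card else 0)| ≤ _
      split_ifs
      · exact hφ _ _
      · rw [abs_zero]
        positivity
    refine h1.trans (le_of_eq ?_)
    rw [prod_pow_eq_pow_sum]
    congr 1
    symm
    exact card_eq_sum_card_fiberwise fun p hp => by
      have := (hD p (hT hp)).2.2.2
      simpa using this
  · rw [if_neg hc']
    push Not at hc'
    obtain ⟨j, hj, hj2⟩ := hc'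
    have h0 : c T = 0 := by
      show ∏ j ∈ range J, φ' j (T.filter fun p => be p = j).card = 0
      exact prod_eq_zero (mem_range.2 hj) (hφ' j _ hj2)
    rw [h0, abs_zero, zero_mul]

end Pool.Agent.Lib.P4a7640T
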