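import Mathlib
import Pool.Agent.Lib.P4a7640T.ApBlocks

/-!
# The sieve in residue classes

Adapted from `P4a7640D.Sieve`.
-/

open Finset

namespace Pool.Agent.Lib.P4a7640T

open Pool.Agent.Lib.P4a7640 Pool.Agent.Lib.P4a7640D

open SieveAux in
theorem sieve_ap (H : Finset ℕ) (hne : H.Nonempty) (η : ℝ) (hη : 0 < η) :
    ∃ z R : ℕ, ∀ (q : ℕ), 0 < q → ∃ x₀ : ℕ, ∀ (D : Finset ℕ) (J x a : ℕ),
      (∀ p ∈ D, p.Prime ∧ z ≤ p ∧ be p < J ∧ Nat.Coprime q p) →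
      2 ^ (2 ^ (J + 2) * (R + 2)) ≤ x → x₀ ≤ x →
      |∑ n ∈ Icc 1 x, (if n ≡ a [MOD q] then (1:ℝ) else 0) * uu H D n| ≤
        x / q * (Real.exp (-(2 * H.card * ∑ p ∈ D, (1:ℝ) / p)) + η) := by
  classical
  obtain ⟨C₁, hC₁, hmass⟩ := block_mass
  set m := H.card with hm
  have hm1 : 1 ≤ m := Finset.card_pos.2 hne
  have hmR : (1:ℝ) ≤ m := by exact_mod_cast hm1
  obtain ⟨R, hR⟩ := main_term (2 * m * C₁) (η / 4) (by positivity) (by positivity)
  refine ⟨H.sup id + 1 + (2 * m) ^ 2, R, fun q hq =>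
    ⟨⌈(8 / (η / (2 * q))) ^ 4⌉₊, fun D J x a hD hx hx₀ => ?_⟩⟩
  have hq0 : (0:ℝ) < q := by exact_mod_cast hq
  have hsumexp : 2 * (m:ℝ) * ∑ p ∈ D, (1:ℝ) / p = 2 * ∑ p ∈ D, (m:ℝ) / p := by
    rw [mul_assoc, mul_sum]
    congr 1
    refine sum_congr rfl fun p _ => ?_
    ring
  have hbe : ∀ p ∈ D, be p < J := fun p hp => (hD p hp).2.2.1
  have hx4 : (8 / (η / (2 * q))) ^ 4 ≤ (x:ℝ) := by
    refine (Nat.le_ceil _).trans ?_
    exact_mod_cast hx₀
  have hsmall := rpow_small (show 0 < η / (2 * q) by positivity) hx4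
  have hDm : ∀ p ∈ D, p.Prime ∧ (∀ h ∈ H, h < p) ∧ (2 * H.card) ^ 2 ≤ p ∧ be p < J := by
    intro p hp
    obtain ⟨hp1, hp2, hp3, _⟩ := hD p hp
    refine ⟨hp1, fun h hh => ?_, ?_, hp3⟩
    · have h1 : h ≤ H.sup id := Finset.le_sup (f := id) hh
      omega
    · rw [← hm]
      omega
  have hmain := hR m D be J (fun p hp => by
      obtain ⟨hp1, _, hp3, _⟩ := hDm p hp
      rw [← hm] at hp3
      refine ⟨hp1.pos, ?_⟩
      nlinarith) hbe (fun j _ => by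
      have h1 := hmass j (D.filter fun p => be p = j) (fun p hp => by
        rw [mem_filter] at hp
        exact ⟨(hD p hp.1).1, hp.2⟩)
      have h2 : ∑ p ∈ D.filter (fun p => be p = j), (m:ℝ) / p =
          m * ∑ p ∈ D.filter (fun p => be p = j), (1:ℝ) / p := by
        rw [mul_sum]
        refine sum_congr rfl fun p _ => ?_
        ring
      rw [h2]
      calc 2 * ((m:ℝ) * ∑ p ∈ D.filter (fun p => be p = j), (1:ℝ) / p) ≤ 2 * (m * C₁) := by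
            gcongr
        _ = 2 * m * C₁ := by ring)
  obtain ⟨hm1', hm2'⟩ := hmain
  -- the two applications of `mean_blocks`
  have hA := mean_blocks_ap H D J R x q a hq hDm (fun p hp => (hD p hp).2.2.2) hx (fun j r => ph (R + (J - 1 - j)) r)
    (fun j r => abs_ph _ r)
  have hB := mean_blocks_ap H D J R x q a hq hDm (fun p hp => (hD p hp).2.2.2) hx (fun j r => ps (R + (J - 1 - j)) r)
    (fun j r => abs_ps _ r)
  simp only [sum_ph, sum_ps, Nat.choose_zero_right, Nat.cast_one, esy_zero, ← hm] at hA hB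
  set K : ℕ → ℕ → ℕ := fun j n => KK H (D.filter fun p => be p = j) n with hK
  have hA' : |∑ n ∈ Icc 1 x, (if n ≡ a [MOD q] then (1:ℝ) else 0) *
        ∏ j ∈ range J, tr (R + (J - 1 - j)) (K j n) -
      x / q * ∏ j ∈ range J, (∑ r ∈ range (R + (J - 1 - j) + 1),
        (-2:ℝ) ^ r * esy (fun p => (m : ℝ) / p) (D.filter fun p => be p = j) r)| ≤
      (x:ℝ) ^ ((3:ℝ) / 4) := hA
  have hB' : |∑ n ∈ Icc 1 x, (if n ≡ a [MOD q] then (1:ℝ) else 0) *
        ∏ j ∈ range J, (1 + er (R + (J - 1 - j)) (K j n)) -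
      x / q * ∏ j ∈ range J, (1 + 2 ^ (R + (J - 1 - j) + 1) *
        esy (fun p => (m : ℝ) / p) (D.filter fun p => be p = j) (R + (J - 1 - j) + 1))| ≤
      (x:ℝ) ^ ((3:ℝ) / 4) := hB
  set T1 := ∏ j ∈ range J, (∑ r ∈ range (R + (J - 1 - j) + 1),
        (-2:ℝ) ^ r * esy (fun p => (m : ℝ) / p) (D.filter fun p => be p = j) r) with hT1
  set T2 := ∏ j ∈ range J, (1 + 2 ^ (R + (J - 1 - j) + 1) *
        esy (fun p => (m : ℝ) / p) (D.filter fun p => be p = j) (R + (J - 1 - j) + 1)) with hT2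
  set I : ℕ → ℝ := fun n => if n ≡ a [MOD q] then (1:ℝ) else 0 with hI
  have hI0 : ∀ n, 0 ≤ I n := fun n => by simp only [hI]; split_ifs <;> norm_num
  have hcount : (x:ℝ) / q - 1 ≤ ∑ n ∈ Icc 1 x, I n := by
    have h1 := (abs_le.1 (base_count x q a hq)).1
    linarith
  have htel : |∑ n ∈ Icc 1 x, I n * uu H D n -
      ∑ n ∈ Icc 1 x, I n * ∏ j ∈ range J, tr (R + (J - 1 - j)) (K j n)| ≤
      ∑ n ∈ Icc 1 x, I n * ∏ j ∈ range J, (1 + er (R + (J - 1 - j)) (K j n)) -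
        ∑ n ∈ Icc 1 x, I n := by
    rw [← sum_sub_distrib, ← sum_sub_distrib]
    refine (abs_sum_le_sum_abs _ _).trans ?_
    refine sum_le_sum fun n _ => ?_
    rw [← mul_sub, abs_mul, abs_of_nonneg (hI0 n), uu_split H D J n hbe]
    have h1 := prod_telescope (range J) (fun j => (-1:ℝ) ^ K j n)
      (fun j => tr (R + (J - 1 - j)) (K j n)) (fun j => er (R + (J - 1 - j)) (K j n))
      (fun j _ => by rw [abs_pow, abs_neg, abs_one, one_pow])
      (fun j _ => trunc _ _)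
    have h2 := mul_le_mul_of_nonneg_left h1 (hI0 n)
    refine h2.trans (le_of_eq ?_)
    ring
  have hxR : (0:ℝ) ≤ x / q := by positivity
  have hx1 : (1:ℝ) ≤ x := by
    have h1 : 1 ≤ x := le_trans Nat.one_le_two_pow hx
    exact_mod_cast h1
  have hx34 : (1:ℝ) ≤ (x:ℝ) ^ ((3:ℝ) / 4) := Real.one_le_rpow hx1 (by norm_num)
  have k1 : |∑ n ∈ Icc 1 x, I n * ∏ j ∈ range J, tr (R + (J - 1 - j)) (K j n)| ≤
      x / q * |T1| + (x:ℝ) ^ ((3:ℝ) / 4) := by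
    have h1 := abs_sub_abs_le_abs_sub (∑ n ∈ Icc 1 x, I n * ∏ j ∈ range J,
      tr (R + (J - 1 - j)) (K j n)) (x / q * T1)
    rw [abs_mul, abs_of_nonneg hxR] at h1
    linarith
  have k2 : ∑ n ∈ Icc 1 x, I n * ∏ j ∈ range J, (1 + er (R + (J - 1 - j)) (K j n)) ≤
      x / q * T2 + (x:ℝ) ^ ((3:ℝ) / 4) := by
    have h1 := (abs_le.1 hB').2
    linarith
  have k3 : x / q * |T1| ≤ x / q * (Real.exp (-(2 * ∑ p ∈ D, (m : ℝ) / p)) + η / 4) :=
    mul_le_mul_of_nonneg_left hm1' hxR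
  have k4 : x / q * T2 - x / q ≤ x / q * (η / 4) := by
    have h1 : (x:ℝ) / q * T2 - x / q = x / q * (T2 - 1) := by ring
    rw [h1]
    exact mul_le_mul_of_nonneg_left hm2' hxR
  have k5 := abs_sub_abs_le_abs_sub (∑ n ∈ Icc 1 x, I n * uu H D n)
    (∑ n ∈ Icc 1 x, I n * ∏ j ∈ range J, tr (R + (J - 1 - j)) (K j n))
  rw [hsumexp]
  have k6 : x / q * (Real.exp (-(2 * ∑ p ∈ D, (m : ℝ) / p)) + η / 4) + x / q * (η / 4) +
      2 * (x:ℝ) ^ ((3:ℝ) / 4) + 2 * (x:ℝ) ^ ((3:ℝ) / 4) ≤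
      x / q * (Real.exp (-(2 * ∑ p ∈ D, (m : ℝ) / p)) + η) := by
    have h1 : (x:ℝ) * (η / (2 * q) / 4) = x / q * (η / 8) := by
      field_simp
      ring
    rw [h1] at hsmall
    have h2 : 0 ≤ (x:ℝ) / q * η := by positivity
    nlinarith
  linarith

end Pool.Agent.Lib.P4a7640T
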