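import Mathlib
import Pool.Agent.Lib.P4a7640T.ApSieve

/-!
# The logarithmic sieve in residue classes

Adapted from `P4a7640D.LogSieve`.
-/

open Finset

namespace Pool.Agent.Lib.P4a7640T

open Pool.Agent.Lib.P4a7640 Pool.Agent.Lib.P4a7640D

open LogSieveAux in
theorem log_sieve_ap (H : Finset ℕ) (hne : H.Nonempty) (η : ℝ) (hη : 0 < η) :
    ∃ (z : ℕ) (A : ℝ), 0 < A ∧ ∀ q : ℕ, 0 < q → ∃ c N₀ : ℕ, ∀ N ≥ N₀, ∀ D : Finset ℕ,
      (∀ p ∈ D, p.Prime ∧ z ≤ p ∧ p ^ (2 ^ c) ≤ N ∧ Nat.Coprime q p) →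
      A ≤ ∑ p ∈ D, (1:ℝ) / p → ∀ a : ℕ,
      |LA (fun n => (if n ≡ a [MOD q] then (1:ℝ) else 0) * uu H D n) N| ≤ η / q := by
  obtain ⟨z, R, hS⟩ := sieve_ap H hne (η / 8) (by positivity)
  set A : ℝ := 1 + |Real.log (η / 8)| with hA
  have hA0 : 0 < A := by
    have := abs_nonneg (Real.log (η / 8))
    linarith
  have hexp : Real.exp (-(2 * A)) ≤ η / 8 := by
    calc Real.exp (-(2 * A)) ≤ Real.exp (Real.log (η / 8)) := by
          apply Real.exp_le_exp.2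
          have h1 := neg_abs_le (Real.log (η / 8))
          have h2 := abs_nonneg (Real.log (η / 8))
          rw [hA]
          linarith
      _ = η / 8 := Real.exp_log (by positivity)
  refine ⟨z, A, hA0, fun q hq => ?_⟩
  have hq0 : (0:ℝ) < q := by exact_mod_cast hq
  have hq1 : (1:ℝ) ≤ q := by exact_mod_cast hq
  obtain ⟨x₀, hS⟩ := hS q hq
  set θ : ℝ := η / (8 * q) with hθ
  have hθ0 : 0 < θ := by positivity
  obtain ⟨c, hc⟩ : ∃ c : ℕ, 8 * ((R:ℝ) + 2) ≤ θ * 2 ^ c := by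
    obtain ⟨c, hc⟩ := pow_unbounded_of_one_lt (8 * ((R:ℝ) + 2) / θ) (show (1:ℝ) < 2 by norm_num)
    refine ⟨c, ?_⟩
    rw [div_lt_iff₀ hθ0] at hc
    linarith
  obtain ⟨N₀, hN₀⟩ : ∃ N₀ : ℕ, ∀ N ≥ N₀, 4 * q / η + 1 ≤ Real.log N ∧
      (x₀ : ℝ) ≤ (N:ℝ) ^ θ := by
    have h1 := (Real.tendsto_log_atTop.comp tendsto_natCast_atTop_atTop).eventually_ge_atTop
      (4 * q / η + 1)
    have h2 := ((tendsto_rpow_atTop hθ0).comp tendsto_natCast_atTop_atTop).eventually_ge_atTop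
      (x₀ : ℝ)
    exact Filter.eventually_atTop.1 (h1.and h2)
  refine ⟨c, N₀ + 1, fun N hN D hD hDA a => ?_⟩
  obtain ⟨hlog, hx₀⟩ := hN₀ N (by omega)
  have hη4 : 0 < 4 * q / η := by positivity
  have hlog0 : 0 < Real.log N := by linarith
  have hN1 : 1 ≤ N := by omega
  have hNr : (0:ℝ) < N := by exact_mod_cast hN1
  have hDne : D.Nonempty := by
    rw [Finset.nonempty_iff_ne_empty]
    rintro rfl
    simp at hDA
    linarith
  set l := Nat.log 2 N with hl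
  set b := Nat.log 2 l with hb
  have hpl : ∀ p ∈ D, 1 ≤ Nat.log 2 p ∧ Nat.log 2 p * 2 ^ c ≤ l := by
    intro p hp
    obtain ⟨h1, _, h3, _⟩ := hD p hp
    refine ⟨Nat.log_pos (by norm_num) h1.two_le, ?_⟩
    rw [hl]
    apply Nat.le_log_of_pow_le (by norm_num)
    refine le_trans ?_ h3
    rw [pow_mul]
    exact Nat.pow_le_pow_left (Nat.pow_log_le_self 2 h1.ne_zero) _
  have hlb : l < 2 ^ (b + 1) := Nat.lt_pow_succ_log_self (by norm_num) l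
  have hcb : c ≤ b := by
    obtain ⟨p, hp⟩ := hDne
    obtain ⟨h1, h2⟩ := hpl p hp
    have h3 : 2 ^ c < 2 ^ (b + 1) := by
      refine lt_of_le_of_lt ?_ hlb
      calc 2 ^ c = 1 * 2 ^ c := by ring
        _ ≤ Nat.log 2 p * 2 ^ c := Nat.mul_le_mul_right _ h1
        _ ≤ l := h2
    have := (Nat.pow_lt_pow_iff_right (by norm_num : 1 < 2)).1 h3
    omega
  have hl0 : l ≠ 0 := by
    obtain ⟨p, hp⟩ := hDne
    obtain ⟨h1, h2⟩ := hpl p hp
    have : 0 < Nat.log 2 p * 2 ^ c := by positivity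
    omega
  obtain ⟨J, hJ⟩ : ∃ J, b + 1 = J + c := ⟨b + 1 - c, by omega⟩
  have hbe : ∀ p ∈ D, be p < J := by
    intro p hp
    obtain ⟨h1, h2⟩ := hpl p hp
    unfold be
    apply Nat.log_lt_of_lt_pow (by omega)
    have h3 : Nat.log 2 p * 2 ^ c < 2 ^ J * 2 ^ c := by
      rw [← pow_add, ← hJ]
      exact lt_of_le_of_lt h2 hlb
    exact Nat.lt_of_mul_lt_mul_right h3
  have hlev : (2 ^ (J + 2) * (R + 2) : ℝ) ≤ θ * l := by
    have h1 : ((2:ℝ) ^ b) ≤ l := by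
      exact_mod_cast Nat.pow_log_le_self 2 hl0
    have h2 : ((2:ℝ) ^ (J + 2) * (R + 2)) * 2 ^ c = 8 * (R + 2) * 2 ^ b := by
      have : (2:ℝ) ^ (J + 2) * 2 ^ c = 8 * 2 ^ b := by
        rw [← pow_add, show J + 2 + c = b + 3 by omega, pow_add]
        norm_num
        ring
      calc ((2:ℝ) ^ (J + 2) * (R + 2)) * 2 ^ c = ((2:ℝ) ^ (J + 2) * 2 ^ c) * (R + 2) := by ring
        _ = 8 * (R + 2) * 2 ^ b := by rw [this]; ring
    have h3 : ((2:ℝ) ^ (J + 2) * (R + 2)) * 2 ^ c ≤ (θ * l) * 2 ^ c := by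
      rw [h2]
      calc 8 * ((R:ℝ) + 2) * 2 ^ b ≤ (θ * 2 ^ c) * l :=
            mul_le_mul hc h1 (by positivity) (by positivity)
        _ = (θ * l) * 2 ^ c := by ring
    exact le_of_mul_le_mul_right h3 (by positivity)
  have hNθ : (2:ℝ) ^ (2 ^ (J + 2) * (R + 2)) ≤ (N:ℝ) ^ θ := by
    have h1 : ((2:ℝ) ^ l) ≤ N := by
      exact_mod_cast Nat.pow_log_le_self 2 (by omega : N ≠ 0)
    calc (2:ℝ) ^ (2 ^ (J + 2) * (R + 2)) = (2:ℝ) ^ (((2 ^ (J + 2) * (R + 2) : ℕ)) : ℝ) := by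
          rw [Real.rpow_natCast]
      _ ≤ (2:ℝ) ^ (θ * l) := by
          apply Real.rpow_le_rpow_of_exponent_le (by norm_num)
          push_cast
          exact hlev
      _ = ((2:ℝ) ^ l) ^ θ := by
          rw [mul_comm, Real.rpow_mul (by norm_num), Real.rpow_natCast]
      _ ≤ (N:ℝ) ^ θ := Real.rpow_le_rpow (by positivity) h1 hθ0.le
  set u : ℕ → ℝ := fun n => (if n ≡ a [MOD q] then (1:ℝ) else 0) * uu H D n with hu
  have hu1 : ∀ n, |u n| ≤ 1 := by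
    intro n
    simp only [hu]
    rw [abs_mul, abs_uu, mul_one]
    split_ifs <;> simp
  have hle1 : ∀ n, |∑ k ∈ Icc 1 n, u k| ≤ n := by
    intro n
    calc |∑ k ∈ Icc 1 n, u k| ≤ ∑ k ∈ Icc 1 n, |u k| := Finset.abs_sum_le_sum_abs _ _
      _ ≤ ∑ k ∈ Icc 1 n, (1:ℝ) := Finset.sum_le_sum fun k _ => hu1 k
      _ = n := by simp
  have hcard : (1:ℝ) ≤ H.card := by
    exact_mod_cast Finset.card_pos.2 hne
  have hle2 : ∀ n, ⌊(N:ℝ) ^ θ⌋₊ < n → n ≤ N → |∑ k ∈ Icc 1 n, u k| ≤ n * (η / (4 * q)) := by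
    intro n hn _
    have h1 : (N:ℝ) ^ θ < n := (Nat.floor_lt (by positivity)).1 hn
    have h2 : 2 ^ (2 ^ (J + 2) * (R + 2)) ≤ n := by
      have : (2:ℝ) ^ (2 ^ (J + 2) * (R + 2)) ≤ n := hNθ.trans h1.le
      exact_mod_cast this
    have h2' : x₀ ≤ n := by
      have : (x₀ : ℝ) ≤ n := hx₀.trans h1.le
      exact_mod_cast this
    have h3 := hS D J n a (fun p hp => ⟨(hD p hp).1, (hD p hp).2.1, hbe p hp, (hD p hp).2.2.2⟩)
      h2 h2'
    refine h3.trans ?_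
    have h4 : Real.exp (-(2 * H.card * ∑ p ∈ D, (1:ℝ) / p)) ≤ Real.exp (-(2 * A)) := by
      apply Real.exp_le_exp.2
      have h5 : (1:ℝ) * A ≤ H.card * ∑ p ∈ D, (1:ℝ) / p :=
        mul_le_mul hcard hDA hA0.le (by positivity)
      nlinarith
    have h5 : (n:ℝ) * (η / (4 * q)) = n / q * (η / 4) := by
      field_simp
    rw [h5]
    apply mul_le_mul_of_nonneg_left _ (by positivity)
    linarith
  have hmain := abel_le u N ⌊(N:ℝ) ^ θ⌋₊ (η / (4 * q)) (by positivity) hle1 hle2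
  have hfl : Real.log (⌊(N:ℝ) ^ θ⌋₊ : ℝ) ≤ θ * Real.log N := by
    have h1 : (1:ℝ) ≤ (N:ℝ) ^ θ := Real.one_le_rpow (by exact_mod_cast hN1) hθ0.le
    have h2 : 1 ≤ ⌊(N:ℝ) ^ θ⌋₊ := (Nat.one_le_floor_iff _).2 h1
    rw [← Real.log_rpow hNr]
    apply Real.log_le_log (by exact_mod_cast h2)
    exact Nat.floor_le (by positivity)
  unfold LA
  rw [abs_div, abs_of_pos hlog0, div_le_iff₀ hlog0]
  refine hmain.trans ?_
  have hηq : 0 < η / q := by positivity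
  have h6 : η / q * (4 * q / η + 1) ≤ η / q * Real.log N := mul_le_mul_of_nonneg_left hlog hηq.le
  have h7 : η / q * (4 * q / η + 1) = 4 + η / q := by field_simp
  have h8 : θ = η / q / 8 := by rw [hθ]; field_simp
  have h9 : η / (4 * q) = η / q / 4 := by field_simp
  have hfl' : Real.log (⌊(N:ℝ) ^ θ⌋₊ : ℝ) ≤ η / q / 8 * Real.log N := by
    rw [← h8]
    exact hfl
  rw [h9]
  rw [h7] at h6
  generalize Real.log (⌊(N:ℝ) ^ θ⌋₊ : ℝ) = M at hfl'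
  nlinarith

end Pool.Agent.Lib.P4a7640T
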