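import Mathlib
import Pool.Agent.Lib.P4a7640.Furst
import Pool.Agent.Lib.P4a7640.Stable

/-!
# Tame families of multiplicative sign functions: definitions
-/

open Finset Filter Topology
open Pool.Agent.Lib.P4a7640

namespace Pool.Agent.Lib.P4a7640T

open Classical in
/-- the proportion of the weight `w` on `1, ..., K` that lies in `S` -/
noncomputable def WD (w : ℕ → ℝ) (S : Set ℕ) (K : ℕ) : ℝ :=
  (∑ N ∈ (Icc 1 K).filter (fun N => N ∈ S), w N) / ∑ N ∈ Icc 1 K, w N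

open Classical in
/-- the sum of `1/p` over the primes `N^(1/c) < p ≤ N` with `f p ≠ g p` -/
noncomputable def topDist (c : ℕ) (f g : ℕ → ℤˣ) (N : ℕ) : ℝ :=
  ∑ p ∈ (Icc 1 N).filter (fun p => p.Prime ∧ N < p ^ c ∧ f p ≠ g p), (1:ℝ) / p

open Classical in
/-- the sum of `1/p` over the primes `y < p ≤ N` with `B p` -/
noncomputable def psum (B : ℕ → Prop) (y N : ℕ) : ℝ :=
  ∑ p ∈ (Finset.Ioc y N).filter (fun p => p.Prime ∧ B p), 1 / (p:ℝ)

/-- the logarithmic average `(1 / log N) ∑_{n ≤ N} u(n) / n` -/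
noncomputable def lav (u : ℕ → ℝ) (N : ℕ) : ℝ := (∑ n ∈ Finset.Icc 1 N, u n / n) / Real.log N

/-- The family `F` is tame at `w`-almost all scales: for all `c`, `ρ > 0` there is `k` such that for
any `k` members of `F`, at all scales `N` outside a set of `w`-density zero, two of them differ by at
most `ρ` on the primes `N^(1/c) < p ≤ N`. -/
def Tame (w : ℕ → ℝ) (F : Set (ℕ → ℤˣ)) : Prop :=
  ∀ (c : ℕ) (ρ : ℝ), 0 < ρ → ∃ k : ℕ, ∀ t : Finset (ℕ → ℤˣ), (∀ f ∈ t, f ∈ F) → t.card = k →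
    Tendsto (fun K => WD w {N | ∀ f ∈ t, ∀ f' ∈ t, f ≠ f' → ρ < topDist c f f' N} K) atTop (𝓝 0)

/-- `f` is close to `h` at `w`-almost all scales -/
def Close (w : ℕ → ℝ) (f h : ℕ → ℤˣ) : Prop :=
  ∀ (c : ℕ) (ρ : ℝ), 0 < ρ →
    Tendsto (fun K => WD w {N | ρ < topDist c f h N} K) atTop (𝓝 0)

/-- The multiplicative functions that are close, at `w`-almost all scales, to `g (-1)^k` for some
nondecreasing `k` with `k(x^2) ≤ k(x) + V`. -/
def Osc (w : ℕ → ℝ) (g : ℕ → ℤˣ) (V : ℕ) : Set (ℕ → ℤˣ) :=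
  {f | MultS f ∧ ∃ k : ℕ → ℕ, Monotone k ∧ (∀ x, k (x ^ 2) ≤ k x + V) ∧
    Close w f (fun n => g n * (-1) ^ k n)}

end Pool.Agent.Lib.P4a7640T
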