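import Mathlib
import Pool.Agent.Lib.P4a7640T.Defs

/-!
# Weighted densities
-/

open Finset Filter Topology
open Pool.Agent.Lib.P4a7640

namespace Pool.Agent.Lib.P4a7640T

/-- the total weight -/
noncomputable def tot (w : ℕ → ℝ) (K : ℕ) : ℝ := ∑ N ∈ Icc 1 K, w N

open Classical in
/-- the weight of `S` up to `K` -/
noncomputable def wt (w : ℕ → ℝ) (S : Set ℕ) (K : ℕ) : ℝ :=
  ∑ N ∈ (Icc 1 K).filter (fun N => N ∈ S), w N

lemma WD_eq (w : ℕ → ℝ) (S : Set ℕ) (K : ℕ) : WD w S K = wt w S K / tot w K := rfl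

lemma tot_mono {w : ℕ → ℝ} (hw : ∀ n, 0 ≤ w n) : Monotone (tot w) := by
  intro a b hab
  unfold tot
  exact sum_le_sum_of_subset_of_nonneg (Icc_subset_Icc_right hab) fun N _ _ => hw N

lemma tot_nonneg {w : ℕ → ℝ} (hw : ∀ n, 0 ≤ w n) (K : ℕ) : 0 ≤ tot w K :=
  sum_nonneg fun N _ => hw N

lemma wt_nonneg {w : ℕ → ℝ} (hw : ∀ n, 0 ≤ w n) (S : Set ℕ) (K : ℕ) : 0 ≤ wt w S K :=
  sum_nonneg fun N _ => hw N

lemma wt_mono {w : ℕ → ℝ} (hw : ∀ n, 0 ≤ w n) {S T : Set ℕ} (K : ℕ)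
    (h : ∀ N, 1 ≤ N → N ≤ K → N ∈ S → N ∈ T) : wt w S K ≤ wt w T K := by
  classical
  unfold wt
  apply sum_le_sum_of_subset_of_nonneg
  · intro N hN
    rw [mem_filter, mem_Icc] at hN ⊢
    exact ⟨hN.1, h N hN.1.1 hN.1.2 hN.2⟩
  · intro N _ _
    exact hw N

/-- if `A` is contained in `[1, a] ∪ B` up to `K` then its weight is at most that of `B` plus the
total weight of `[1, a]` -/
lemma wt_le_add {w : ℕ → ℝ} (hw : ∀ n, 0 ≤ w n) {A B : Set ℕ} {a K : ℕ}
    (h : ∀ N, a < N → N ≤ K → N ∈ A → N ∈ B) : wt w A K ≤ tot w a + wt w B K := by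
  classical
  unfold wt tot
  have hsub : (Icc 1 K).filter (fun N => N ∈ A) ⊆ Icc 1 a ∪ (Icc 1 K).filter (fun N => N ∈ B) := by
    intro N hN
    rw [mem_filter, mem_Icc] at hN
    rw [mem_union, mem_filter, mem_Icc, mem_Icc]
    by_cases hNa : N ≤ a
    · exact Or.inl ⟨hN.1.1, hNa⟩
    · exact Or.inr ⟨hN.1, h N (not_le.mp hNa) hN.1.2 hN.2⟩
  refine (sum_le_sum_of_subset_of_nonneg hsub fun N _ _ => hw N).trans ?_
  rw [← sum_union_inter]
  have : (0:ℝ) ≤ ∑ N ∈ Icc 1 a ∩ (Icc 1 K).filter (fun N => N ∈ B), w N :=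
    sum_nonneg fun N _ => hw N
  linarith

lemma wt_union_le {w : ℕ → ℝ} (hw : ∀ n, 0 ≤ w n) {A B C : Set ℕ} {K : ℕ}
    (h : ∀ N, 1 ≤ N → N ≤ K → N ∈ A → N ∈ B ∨ N ∈ C) : wt w A K ≤ wt w B K + wt w C K := by
  classical
  unfold wt
  have hsub : (Icc 1 K).filter (fun N => N ∈ A) ⊆
      (Icc 1 K).filter (fun N => N ∈ B) ∪ (Icc 1 K).filter (fun N => N ∈ C) := by
    intro N hN
    rw [mem_filter, mem_Icc] at hN
    rw [mem_union, mem_filter, mem_filter, mem_Icc]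
    rcases h N hN.1.1 hN.1.2 hN.2 with h1 | h1
    · exact Or.inl ⟨hN.1, h1⟩
    · exact Or.inr ⟨hN.1, h1⟩
  refine (sum_le_sum_of_subset_of_nonneg hsub fun N _ _ => hw N).trans ?_
  rw [← sum_union_inter]
  have : (0:ℝ) ≤ ∑ N ∈ (Icc 1 K).filter (fun N => N ∈ B) ∩ (Icc 1 K).filter (fun N => N ∈ C), w N :=
    sum_nonneg fun N _ => hw N
  linarith

lemma wt_add_compl (w : ℕ → ℝ) (S : Set ℕ) (K : ℕ) : wt w S K + wt w Sᶜ K = tot w K := by
  classical
  unfold wt tot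
  rw [← sum_filter_add_sum_filter_not (Icc 1 K) (fun N => N ∈ S)]
  congr 1
  refine sum_congr ?_ fun _ _ => rfl
  ext N
  simp only [mem_filter, Set.mem_compl_iff]

lemma WD_nonneg {w : ℕ → ℝ} (hw : ∀ n, 0 ≤ w n) (S : Set ℕ) (K : ℕ) : 0 ≤ WD w S K :=
  div_nonneg (wt_nonneg hw S K) (tot_nonneg hw K)

lemma WD_le_one {w : ℕ → ℝ} (hw : ∀ n, 0 ≤ w n) (S : Set ℕ) (K : ℕ) : WD w S K ≤ 1 := by
  rw [WD_eq]
  apply div_le_one_of_le₀ _ (tot_nonneg hw K)
  have := wt_add_compl w S K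
  have := wt_nonneg hw Sᶜ K
  linarith

/-- the density of `A` when it is contained in `B ∪ C` -/
lemma WD_union_le {w : ℕ → ℝ} (hw : ∀ n, 0 ≤ w n) {A B C : Set ℕ} {K : ℕ}
    (h : ∀ N, 1 ≤ N → N ≤ K → N ∈ A → N ∈ B ∨ N ∈ C) : WD w A K ≤ WD w B K + WD w C K := by
  rw [WD_eq, WD_eq, WD_eq, ← add_div]
  exact div_le_div_of_nonneg_right (wt_union_le hw h) (tot_nonneg hw K)

lemma WD_mono {w : ℕ → ℝ} (hw : ∀ n, 0 ≤ w n) {S T : Set ℕ} {K : ℕ}
    (h : ∀ N, 1 ≤ N → N ≤ K → N ∈ S → N ∈ T) : WD w S K ≤ WD w T K := by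
  rw [WD_eq, WD_eq]
  exact div_le_div_of_nonneg_right (wt_mono hw K h) (tot_nonneg hw K)

/-- eventual inclusions suffice -/
lemma WD_tendsto_zero {w : ℕ → ℝ} (hw : ∀ n, 0 ≤ w n) (hW : Tendsto (tot w) atTop atTop)
    {A B : Set ℕ} (h : ∀ᶠ N in atTop, N ∈ A → N ∈ B) (hB : Tendsto (WD w B) atTop (𝓝 0)) :
    Tendsto (WD w A) atTop (𝓝 0) := by
  obtain ⟨a, ha⟩ := eventually_atTop.1 h
  have h1 : Tendsto (fun K => tot w a / tot w K + WD w B K) atTop (𝓝 0) := by
    simpa using (hW.const_div_atTop (tot w a)).add hB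
  refine squeeze_zero (fun K => WD_nonneg hw A K) (fun K => ?_) h1
  rw [WD_eq, WD_eq, ← add_div]
  apply div_le_div_of_nonneg_right _ (tot_nonneg hw K)
  exact wt_le_add hw fun N h1 _ h3 => ha N h1.le h3

/-- sets that are bounded have density zero -/
lemma WD_tendsto_zero_of_eventually {w : ℕ → ℝ} (hw : ∀ n, 0 ≤ w n)
    (hW : Tendsto (tot w) atTop atTop) {A : Set ℕ} (h : ∀ᶠ N in atTop, N ∉ A) :
    Tendsto (WD w A) atTop (𝓝 0) := by
  apply WD_tendsto_zero hw hW (B := ∅) (h.mono fun N h1 h2 => absurd h2 h1)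
  have : WD w ∅ = fun _ => 0 := by
    funext K
    simp [WD]
  rw [this]
  exact tendsto_const_nhds

lemma WD_iUnion_tendsto {w : ℕ → ℝ} (hw : ∀ n, 0 ≤ w n) {ι : Type*} (s : Finset ι) (B : ι → Set ℕ)
    (h : ∀ i ∈ s, Tendsto (WD w (B i)) atTop (𝓝 0)) :
    Tendsto (WD w {N | ∃ i ∈ s, N ∈ B i}) atTop (𝓝 0) := by
  classical
  induction s using Finset.induction_on with
  | empty =>
    have : WD w {N | ∃ i ∈ (∅ : Finset ι), N ∈ B i} = fun _ => 0 := by
      funext K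
      simp [WD]
    rw [this]
    exact tendsto_const_nhds
  | insert i s _ ih =>
    have h1 := h i (mem_insert_self i s)
    have h2 := ih fun j hj => h j (mem_insert_of_mem hj)
    have h3 : Tendsto (fun K => WD w (B i) K + WD w {N | ∃ i ∈ s, N ∈ B i} K) atTop (𝓝 0) := by
      simpa using h1.add h2
    refine squeeze_zero (fun K => WD_nonneg hw _ K) (fun K => WD_union_le hw ?_) h3
    rintro N _ _ ⟨j, hj, hN⟩
    rcases mem_insert.1 hj with rfl | hj
    · exact Or.inl hN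
    · exact Or.inr ⟨j, hj, hN⟩

namespace DensAux

lemma exists_step {w : ℕ → ℝ} (hW : Tendsto (tot w) atTop atTop) (Bd : ℕ → Set ℕ)
    (h : ∀ m, ∀ η : ℝ, 0 < η → ∃ᶠ K in atTop, WD w (Bd m) K < η) (j a : ℕ) :
    ∃ K : ℕ, a < K ∧ 1 ≤ tot w K ∧ WD w (Bd j) K < 1 / ((j:ℝ) + 1) ∧
      tot w a * ((j:ℝ) + 1) ≤ tot w K := by
  have h1 := h j (1 / ((j:ℝ) + 1)) (by positivity)
  obtain ⟨K, ⟨hK1, hK2⟩, hK3, hK4⟩ := ((h1.and_eventually
    (hW.eventually_ge_atTop (tot w a * ((j:ℝ) + 1)))).and_eventually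
    ((eventually_gt_atTop a).and (hW.eventually_ge_atTop 1))).exists
  exact ⟨K, hK3, hK4, hK1, hK2⟩

end DensAux

theorem diagW {w : ℕ → ℝ} (hw : ∀ n, 0 ≤ w n) (hW : Tendsto (tot w) atTop atTop)
    (Bd : ℕ → Set ℕ) (hmono : Monotone Bd)
    (h : ∀ m, ∀ η : ℝ, 0 < η → ∃ᶠ K in atTop, WD w (Bd m) K < η) :
    ∃ S : Set ℕ, (∀ ε : ℝ, 0 < ε → ∃ᶠ K in atTop, 1 - ε ≤ WD w S K) ∧
      ∀ m, ∀ᶠ N in atTop, N ∈ S → N ∉ Bd m := by
  classical
  choose f hf using DensAux.exists_step hW Bd h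
  obtain ⟨Ks, hKs0, hKs⟩ : ∃ Ks : ℕ → ℕ, Ks 0 = 0 ∧ ∀ j, Ks (j + 1) = f (j + 1) (Ks j) :=
    ⟨fun n => Nat.rec 0 (fun j a => f (j + 1) a) n, rfl, fun _ => rfl⟩
  have hlt : ∀ j, Ks j < Ks (j + 1) := fun j => by
    rw [hKs]
    exact (hf (j + 1) (Ks j)).1
  have hmonoK : StrictMono Ks := strictMono_nat_of_lt_succ hlt
  have hLD : ∀ j, WD w (Bd (j + 1)) (Ks (j + 1)) < 1 / ((j:ℝ) + 2) := fun j => by
    have := (hf (j + 1) (Ks j)).2.2.1
    rw [← hKs] at this
    push_cast at this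
    rw [show (j:ℝ) + 2 = (j:ℝ) + 1 + 1 by ring]
    exact this
  have hlog : ∀ j, tot w (Ks j) * ((j:ℝ) + 2) ≤ tot w (Ks (j + 1)) := fun j => by
    have := (hf (j + 1) (Ks j)).2.2.2
    rw [← hKs] at this
    push_cast at this
    rw [show (j:ℝ) + 2 = (j:ℝ) + 1 + 1 by ring]
    exact this
  have hone : ∀ j, 1 ≤ tot w (Ks (j + 1)) := fun j => by
    rw [hKs]
    exact (hf (j + 1) (Ks j)).2.1
  have huniq : ∀ i j N, Ks i < N → N ≤ Ks (i + 1) → Ks j < N → N ≤ Ks (j + 1) → i = j := by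
    intro i j N h1 h2 h3 h4
    have a1 : i < j + 1 := hmonoK.lt_iff_lt.1 (lt_of_lt_of_le h1 h4)
    have a2 : j < i + 1 := hmonoK.lt_iff_lt.1 (lt_of_lt_of_le h3 h2)
    omega
  refine ⟨{N | ∀ j, Ks j < N → N ≤ Ks (j + 1) → N ∉ Bd (j + 1)}, ?_, ?_⟩
  · intro ε hε
    rw [frequently_atTop]
    intro b
    obtain ⟨j, hj⟩ := exists_nat_gt (2 / ε)
    set i := max j b with hi
    refine ⟨Ks (i + 1), ?_, ?_⟩
    · have h1 : i + 1 ≤ Ks (i + 1) := hmonoK.id_le (i + 1)
      have h2 : b ≤ i := le_max_right _ _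
      exact (h2.trans (Nat.le_succ i)).trans h1
    · set S : Set ℕ := {N | ∀ j, Ks j < N → N ≤ Ks (j + 1) → N ∉ Bd (j + 1)} with hS
      have htot : 0 < tot w (Ks (i + 1)) := lt_of_lt_of_le one_pos (hone i)
      have hi2 : 2 / ((i:ℝ) + 2) ≤ ε := by
        have h1 : (j:ℝ) ≤ i := by exact_mod_cast le_max_left j b
        have h2 : 2 / ε < (i:ℝ) + 2 := by linarith
        rw [div_lt_iff₀ hε] at h2
        rw [div_le_iff₀ (by positivity)]
        linarith
      have h1 : wt w Sᶜ (Ks (i + 1)) ≤ tot w (Ks i) + wt w (Bd (i + 1)) (Ks (i + 1)) := by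
        apply wt_le_add hw
        intro N h1 h2 h3
        by_contra hcon
        apply h3
        intro j' h4 h5
        rw [← huniq i j' N h1 h2 h4 h5]
        exact hcon
      have h2 := wt_add_compl w S (Ks (i + 1))
      have h3 := hLD i
      rw [WD_eq, div_lt_iff₀ htot] at h3
      have h4 := hlog i
      rw [WD_eq, le_div_iff₀ htot]
      have hi0 : (0:ℝ) < (i:ℝ) + 2 := by positivity
      have h5 : tot w (Ks i) ≤ 1 / ((i:ℝ) + 2) * tot w (Ks (i + 1)) := by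
        rw [one_div, ← div_eq_inv_mul, le_div_iff₀ hi0]
        exact h4
      have h6 : 2 / ((i:ℝ) + 2) * tot w (Ks (i + 1)) ≤ ε * tot w (Ks (i + 1)) :=
        mul_le_mul_of_nonneg_right hi2 htot.le
      have h7 : 2 / ((i:ℝ) + 2) * tot w (Ks (i + 1)) =
          1 / ((i:ℝ) + 2) * tot w (Ks (i + 1)) + 1 / ((i:ℝ) + 2) * tot w (Ks (i + 1)) := by
        ring
      linarith
  · intro m
    filter_upwards [eventually_gt_atTop (Ks m)] with N hN hS
    have hex : ∃ j, N ≤ Ks j := ⟨N, hmonoK.id_le N⟩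
    have h1 := Nat.find_spec hex
    have h0 : Nat.find hex ≠ 0 := by
      intro h0
      rw [h0] at h1
      have := hmonoK.monotone (Nat.zero_le m)
      omega
    obtain ⟨j, hj⟩ := Nat.exists_eq_succ_of_ne_zero h0
    have h2 : Ks j < N := by
      have := Nat.find_min hex (m := j) (by omega)
      omega
    rw [hj] at h1
    have h3 := hS j h2 h1
    have h4 : m ≤ j := by
      by_contra hcon
      have h5 : j + 1 ≤ m := by omega
      have h6 := hmonoK.monotone h5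
      have : N ≤ Ks m := h1.trans h6
      omega
    exact fun h5 => h3 (hmono (by omega) h5)

open Classical in
/-- A maximal pairwise far family of points whose bad sets have density at least `η` is finite, if
at most `M` members of a pairwise far finite family are bad at almost all scales. -/
theorem finite_netW {w : ℕ → ℝ} (hw : ∀ n, 0 ≤ w n) (hW : Tendsto (tot w) atTop atTop)
    {X : Type*} (bad : X → Set ℕ) (far : X → X → Prop)
    (hsym : ∀ x y, far x y → far y x) (M : ℝ) (hM0 : 0 ≤ M)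
    (hM : ∀ s : Finset X, (∀ x ∈ s, ∀ y ∈ s, x ≠ y → far x y) →
      Tendsto (WD w {N | M < ((s.filter fun x => N ∈ bad x).card : ℝ)}) atTop (𝓝 0))
    (η : ℝ) (hη : 0 < η) :
    ∃ s : Finset X, ∀ x : X, (∀ᶠ K in atTop, η ≤ WD w (bad x) K) → ∃ y ∈ s, y = x ∨ ¬ far y x := by
  have key : ∀ s : Finset X, (∀ x ∈ s, ∀ᶠ K in atTop, η ≤ WD w (bad x) K) →
      (∀ x ∈ s, ∀ y ∈ s, x ≠ y → far x y) → (s.card : ℝ) * η ≤ M := by
    intro s hs hfar
    set E : Set ℕ := {N | M < ((s.filter fun x => N ∈ bad x).card : ℝ)} with hE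
    have hlim := hM s hfar
    have h1 : ∀ᶠ K : ℕ in atTop, (s.card : ℝ) * η ≤ s.card * WD w E K + M := by
      have h2 : ∀ᶠ K in atTop, ∀ x ∈ s, η ≤ WD w (bad x) K := (eventually_all_finset s).2 hs
      filter_upwards [h2, hW.eventually_ge_atTop 1] with K hK hK3
      have htot : 0 < tot w K := lt_of_lt_of_le one_pos hK3
      have h3 : (s.card : ℝ) * η ≤ ∑ x ∈ s, WD w (bad x) K := by
        rw [← nsmul_eq_mul, ← sum_const]
        exact sum_le_sum hK
      refine h3.trans ?_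
      have h4 : ∑ x ∈ s, WD w (bad x) K =
          (∑ N ∈ Icc 1 K, ((s.filter fun x => N ∈ bad x).card : ℝ) * w N) / tot w K := by
        unfold WD tot
        rw [← sum_div]
        congr 1
        simp only [sum_filter]
        rw [sum_comm]
        refine sum_congr rfl fun N _ => ?_
        rw [← sum_filter, sum_const, nsmul_eq_mul]
      rw [h4]
      have h5 : ∑ N ∈ Icc 1 K, ((s.filter fun x => N ∈ bad x).card : ℝ) * w N ≤
          s.card * wt w E K + M * tot w K := by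
        have h6 : ∀ N ∈ Icc 1 K, ((s.filter fun x => N ∈ bad x).card : ℝ) * w N ≤
            (if N ∈ E then (s.card : ℝ) * w N else 0) + M * w N := by
          intro N _
          have hwN := hw N
          by_cases hN : N ∈ E
          · rw [if_pos hN]
            have h7 : ((s.filter fun x => N ∈ bad x).card : ℝ) ≤ s.card := by
              exact_mod_cast card_filter_le _ _
            have h8 := mul_le_mul_of_nonneg_right h7 hwN
            have h9 : 0 ≤ M * w N := mul_nonneg hM0 hwN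
            linarith
          · rw [if_neg hN, zero_add]
            have h7 : ((s.filter fun x => N ∈ bad x).card : ℝ) ≤ M := not_lt.1 hN
            exact mul_le_mul_of_nonneg_right h7 hwN
        refine (sum_le_sum h6).trans ?_
        rw [sum_add_distrib, ← mul_sum, ← sum_filter, ← mul_sum]
        rfl
      calc (∑ N ∈ Icc 1 K, ((s.filter fun x => N ∈ bad x).card : ℝ) * w N) / tot w K
          ≤ (s.card * wt w E K + M * tot w K) / tot w K :=
            div_le_div_of_nonneg_right h5 htot.le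
        _ = s.card * WD w E K + M := by
          rw [WD_eq]
          field_simp
    have h2 : Tendsto (fun K : ℕ => s.card * WD w E K + M) atTop (𝓝 M) := by
      simpa using (hlim.const_mul (s.card : ℝ)).add_const M
    exact ge_of_tendsto h2 h1
  set P : ℕ → Prop := fun n => ∃ s : Finset X, (∀ x ∈ s, ∀ᶠ K in atTop, η ≤ WD w (bad x) K) ∧
    (∀ x ∈ s, ∀ y ∈ s, x ≠ y → far x y) ∧ s.card = n with hP
  have hP0 : P 0 := ⟨∅, by simp, by simp, rfl⟩
  have hb : ∀ n, P n → n ≤ ⌊M / η⌋₊ := by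
    rintro n ⟨s, hs, hfar, rfl⟩
    apply Nat.le_floor
    rw [le_div_iff₀ hη]
    exact key s hs hfar
  obtain ⟨s, hs, hfar, hcard⟩ := Nat.findGreatest_spec (P := P) (Nat.zero_le ⌊M / η⌋₊) hP0
  refine ⟨s, fun x hx => ?_⟩
  by_contra hcon
  push Not at hcon
  have hxs : x ∉ s := fun h => (hcon x h).1 rfl
  have hP1 : P (s.card + 1) := by
    refine ⟨insert x s, ?_, ?_, card_insert_of_notMem hxs⟩
    · intro y hy
      rcases mem_insert.1 hy with rfl | hy
      · exact hx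
      · exact hs y hy
    · intro y hy z hz hyz
      rcases mem_insert.1 hy with hy' | hy' <;> rcases mem_insert.1 hz with hz' | hz'
      · exact absurd (hy'.trans hz'.symm) hyz
      · rw [hy']
        exact hsym _ _ (hcon z hz').2
      · rw [hz']
        exact (hcon y hy').2
      · exact hfar y hy' z hz' hyz
  have h1 := Nat.le_findGreatest (hb _ hP1) hP1
  omega

end Pool.Agent.Lib.P4a7640T
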