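import Mathlib
import Pool.Agent.Lib.P4a7640T.Dens
import Pool.Agent.Lib.P4a7640D.FewCore
import Pool.Agent.Lib.P4a7640D.CountMain

/-!
# Few bad members at each scale
-/

open Finset Filter Topology
open Pool.Agent.Lib.P4a7640
open Pool.Agent.Lib.P4a7640D

namespace Pool.Agent.Lib.P4a7640T

lemma topDist_nonneg (c : ℕ) (f g : ℕ → ℤˣ) (N : ℕ) : 0 ≤ topDist c f g N :=
  sum_nonneg fun p _ => by positivity

lemma topDist_comm (c : ℕ) (f g : ℕ → ℤˣ) (N : ℕ) : topDist c f g N = topDist c g f N := by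
  classical
  unfold topDist
  refine sum_congr ?_ fun _ _ => rfl
  ext p
  simp only [mem_filter, ne_comm]

lemma topDist_triangle (c : ℕ) (f g h : ℕ → ℤˣ) (N : ℕ) :
    topDist c f h N ≤ topDist c f g N + topDist c g h N := by
  classical
  unfold topDist
  have hsub : (Icc 1 N).filter (fun p => p.Prime ∧ N < p ^ c ∧ f p ≠ h p) ⊆
      (Icc 1 N).filter (fun p => p.Prime ∧ N < p ^ c ∧ f p ≠ g p) ∪
        (Icc 1 N).filter (fun p => p.Prime ∧ N < p ^ c ∧ g p ≠ h p) := by
    intro p hp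
    rw [mem_filter] at hp
    rw [mem_union, mem_filter, mem_filter]
    by_cases h1 : f p = g p
    · exact Or.inr ⟨hp.1, hp.2.1, hp.2.2.1, fun h2 => hp.2.2.2 (h1.trans h2)⟩
    · exact Or.inl ⟨hp.1, hp.2.1, hp.2.2.1, h1⟩
  refine (sum_le_sum_of_subset_of_nonneg hsub fun p _ _ => by positivity).trans ?_
  rw [← sum_union_inter]
  have : (0:ℝ) ≤ ∑ p ∈ (Icc 1 N).filter (fun p => p.Prime ∧ N < p ^ c ∧ f p ≠ g p) ∩
      (Icc 1 N).filter (fun p => p.Prime ∧ N < p ^ c ∧ g p ≠ h p), (1:ℝ) / p :=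
    sum_nonneg fun p _ => by positivity
  linarith

open Classical in
/-- Uniformly in the functions: if any `k` of the functions contain two that are close at the large
primes, and any two of them are far at the small primes, then few of them are bad at scale `N`. -/
theorem few_classes {ι : Type*} (H : Finset ℕ) (hne : H.Nonempty) (δ : ℝ) (hδ : 0 < δ) :
    ∃ (c N₀ : ℕ) (M A ρ : ℝ), 0 ≤ M ∧ 0 < A ∧ 0 < ρ ∧ ∀ N ≥ N₀, ∀ (k : ℕ) (s : Finset ι)
      (f : ι → ℕ → ℤˣ), (∀ i ∈ s, MultS (f i)) →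
      (∀ i ∈ s, ∀ j ∈ s, i ≠ j → A ≤ ∑ p ∈ (Icc 1 N).filter
        (fun p => p.Prime ∧ p ^ c ≤ N ∧ f i p ≠ f j p), (1:ℝ) / p) →
      (∀ t ⊆ s, t.card = k → ∃ i ∈ t, ∃ j ∈ t, i ≠ j ∧ topDist c (f i) (f j) N ≤ ρ) →
      ((s.filter fun i => δ ≤ |LA (prodSeq (f i) H) N|).card : ℝ) ≤ k * M := by
  obtain ⟨c, N₀, M, A, ρ, hA, hρ, hcore⟩ := few_core (ι := ι) H hne δ hδ
  have hM0 : 0 ≤ M := by
    have := hcore N₀ le_rfl ∅ (fun _ _ => 1) (by simp) (by simp) (by simp)
    simpa using this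
  refine ⟨2 ^ c, N₀, M, A, ρ / 2, hM0, hA, by positivity, ?_⟩
  intro N hN k s f hmul hfar htame
  set B := s.filter fun i => δ ≤ |LA (prodSeq (f i) H) N| with hB
  have hBs : B ⊆ s := filter_subset _ _
  apply pack B (fun i j => ρ / 2 < topDist (2 ^ c) (f i) (f j) N)
    (fun x y h => by rwa [topDist_comm]) k M hM0
  · intro t ht hpair
    by_contra hcon
    rw [not_le] at hcon
    have hcon' : k < t.card := by exact_mod_cast hcon
    obtain ⟨u, hu, huc⟩ := exists_subset_card_eq hcon'.le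
    obtain ⟨i, hi, j, hj, hij, hle⟩ := htame u ((hu.trans ht).trans hBs) huc
    exact absurd (hpair i (hu hi) j (hu hj) hij) (not_lt.2 hle)
  · intro x hx
    have hsub : (B.filter fun y => y = x ∨ ¬ ρ / 2 < topDist (2 ^ c) (f x) (f y) N) ⊆
        (B.filter fun y => y = x ∨ ¬ ρ / 2 < topDist (2 ^ c) (f x) (f y) N).filter
          fun i => δ ≤ |LA (prodSeq (f i) H) N| := by
      intro y hy
      rw [mem_filter]
      exact ⟨hy, (mem_filter.1 (mem_filter.1 hy).1).2⟩
    have hd : ∀ y ∈ B.filter (fun y => y = x ∨ ¬ ρ / 2 < topDist (2 ^ c) (f x) (f y) N),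
        topDist (2 ^ c) (f x) (f y) N ≤ ρ / 2 := by
      intro y hy
      rcases (mem_filter.1 hy).2 with h | h
      · rw [h]
        have : topDist (2 ^ c) (f x) (f x) N = 0 := by
          unfold topDist
          rw [filter_false_of_mem, sum_empty]
          rintro p _ ⟨_, _, h3⟩
          exact h3 rfl
        rw [this]
        positivity
      · exact not_lt.1 h
    refine le_trans ?_ (hcore N hN (B.filter fun y => y = x ∨
      ¬ ρ / 2 < topDist (2 ^ c) (f x) (f y) N) f ?_ ?_ ?_)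
    · exact_mod_cast card_le_card hsub
    · intro i hi
      exact hmul i (hBs (mem_filter.1 hi).1)
    · intro i hi j hj hij
      exact hfar i (hBs (mem_filter.1 hi).1) j (hBs (mem_filter.1 hj).1) hij
    · intro i hi j hj
      have h1 := hd i hi
      have h2 := hd j hj
      have h3 := topDist_triangle (2 ^ c) (f i) (f x) (f j) N
      rw [topDist_comm (2 ^ c) (f i) (f x)] at h3
      have h4 : topDist (2 ^ c) (f i) (f j) N ≤ ρ := by linarith
      refine le_trans (le_of_eq ?_) h4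
      unfold topDist
      congr!

end Pool.Agent.Lib.P4a7640T
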