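import Mathlib
import Pool.Agent.Lib.P4a7640T.Core

/-!
# All but countably many classes of a tame family
-/

open Finset Filter Topology
open Pool.Agent.Lib.P4a7640
open Pool.Agent.Lib.P4a7640D

namespace Pool.Agent.Lib.P4a7640T

/-- the bad scales of `f` at the level `m` -/
def Bds (m : ℕ) (f : ℕ → ℤˣ) : Set ℕ :=
  {N | ∃ H ∈ (range (m + 1)).powerset, H.Nonempty ∧ 1 / ((m:ℝ) + 1) ≤ |LA (prodSeq f H) N|}

theorem good_of_densW {w : ℕ → ℝ} (hw : ∀ n, 0 ≤ w n) (hW : Tendsto (tot w) atTop atTop)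
    (f : ℕ → ℤˣ)
    (h : ∀ m : ℕ, ∀ η : ℝ, 0 < η → ∃ᶠ K in atTop, WD w (Bds m f) K < η) :
    ∃ S : Set ℕ, (∀ ε : ℝ, 0 < ε → ∃ᶠ K in atTop, 1 - ε ≤ WD w S K) ∧
      VanishL (atTop ⊓ 𝓟 S) f := by
  have hmono : Monotone fun m => Bds m f := by
    intro m m' hmm N hN
    obtain ⟨H, hH, hne, hle⟩ := hN
    refine ⟨H, ?_, hne, le_trans ?_ hle⟩
    · rw [Finset.mem_powerset] at hH ⊢
      exact hH.trans (Finset.range_mono (by omega))
    · apply one_div_le_one_div_of_le (by positivity)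
      have : (m:ℝ) ≤ m' := by exact_mod_cast hmm
      linarith
  obtain ⟨S, hS, hev⟩ := diagW hw hW (fun m => Bds m f) hmono h
  refine ⟨S, hS, ?_⟩
  intro H hne
  rw [Metric.tendsto_nhds]
  intro ε hε
  obtain ⟨j, hj⟩ := exists_nat_one_div_lt hε
  set m := max j (H.sup id) with hm
  have hHm : H ∈ (range (m + 1)).powerset := by
    rw [Finset.mem_powerset]
    intro h hh
    rw [Finset.mem_range, Nat.lt_succ_iff]
    exact (Finset.le_sup (f := id) hh).trans (le_max_right _ _)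
  have hle : 1 / ((m:ℝ) + 1) < ε := by
    refine lt_of_le_of_lt ?_ hj
    apply one_div_le_one_div_of_le (by positivity)
    have : (j:ℝ) ≤ m := by exact_mod_cast le_max_left _ _
    linarith
  rw [eventually_inf_principal]
  filter_upwards [hev m] with N hN hNS
  have h1 := hN hNS
  rw [dist_zero_right, Real.norm_eq_abs]
  by_contra hcon
  rw [not_lt] at hcon
  exact h1 ⟨H, hHm, hne, hle.le.trans hcon⟩

/-- sets of upper density one are unbounded -/
theorem neBotW {w : ℕ → ℝ} (hw : ∀ n, 0 ≤ w n) (hW : Tendsto (tot w) atTop atTop)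
    {S : Set ℕ} (h : ∀ ε : ℝ, 0 < ε → ∃ᶠ K in atTop, 1 - ε ≤ WD w S K) :
    (atTop ⊓ 𝓟 S : Filter ℕ).NeBot := by
  rw [← frequently_mem_iff_neBot]
  intro hnot
  have h1 := WD_tendsto_zero_of_eventually hw hW hnot
  have h2 : ∀ᶠ K in atTop, WD w S K < 1 / 2 := h1.eventually_lt_const (by norm_num)
  refine h (1 / 2) (by norm_num) ?_
  filter_upwards [h2] with K hK
  linarith

lemma eventually_low {B : ℕ → Prop} (hB : Tendsto (fun N => PS B 0 N) atTop atTop) (c : ℕ)
    (A : ℝ) [∀ N : ℕ, DecidablePred fun p : ℕ => p.Prime ∧ p ^ c ≤ N ∧ B p] :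
    ∀ᶠ N : ℕ in atTop, A ≤ ∑ p ∈ (Icc 1 N).filter (fun p => p.Prime ∧ p ^ c ≤ N ∧ B p),
      (1:ℝ) / p := by
  classical
  obtain ⟨Y, hY⟩ := (hB.eventually_ge_atTop A).exists
  filter_upwards [eventually_ge_atTop (Y ^ c), eventually_ge_atTop Y] with N hN hN'
  refine hY.trans ?_
  unfold PS
  apply Finset.sum_le_sum_of_subset_of_nonneg
  · intro p hp
    rw [Finset.mem_filter, Finset.mem_Ioc] at hp
    rw [Finset.mem_filter, Finset.mem_Icc]
    exact ⟨⟨hp.1.1, hp.1.2.trans hN'⟩, hp.2.1, (Nat.pow_le_pow_left hp.1.2 c).trans hN, hp.2.2⟩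
  · intro p _ _
    positivity

open Classical in
/-- In a pairwise far finite subset of a tame family few members are bad, at almost all scales. -/
theorem few_tame {w : ℕ → ℝ} (hw : ∀ n, 0 ≤ w n) (hW : Tendsto (tot w) atTop atTop)
    {F : Set (ℕ → ℤˣ)} (hF : ∀ f ∈ F, MultS f) (hT : Tame w F) (m : ℕ) :
    ∃ M : ℝ, 0 ≤ M ∧ ∀ s : Finset F, (∀ x ∈ s, ∀ y ∈ s, x ≠ y →
        Tendsto (fun N => PS (fun p => x.1 p ≠ y.1 p) 0 N) atTop atTop) →
      Tendsto (WD w {N | M < ((s.filter fun x => N ∈ Bds m x.1).card : ℝ)}) atTop (𝓝 0) := by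
  have hδ : (0:ℝ) < 1 / ((m:ℝ) + 1) := by positivity
  have hM : ∀ H : Finset ℕ, ∃ M : ℝ, 0 ≤ M ∧ (H.Nonempty → ∀ (s : Finset F),
      (∀ x ∈ s, ∀ y ∈ s, x ≠ y →
        Tendsto (fun N => PS (fun p => x.1 p ≠ y.1 p) 0 N) atTop atTop) →
      Tendsto (WD w {N | M < ((s.filter fun i =>
        1 / ((m:ℝ) + 1) ≤ |LA (prodSeq i.1 H) N|).card : ℝ)}) atTop (𝓝 0)) := by
    intro H
    by_cases hne : H.Nonempty
    · obtain ⟨c, N₀, M, A, ρ, hM0, hA, hρ, hcore⟩ := few_classes (ι := F) H hne _ hδ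
      obtain ⟨k, hk⟩ := hT c ρ hρ
      refine ⟨k * M, by positivity, fun _ s hs => ?_⟩
      have hlow : ∀ᶠ N : ℕ in atTop, ∀ i ∈ s, ∀ j ∈ s, i ≠ j → A ≤ ∑ p ∈ (Icc 1 N).filter
          (fun p => p.Prime ∧ p ^ c ≤ N ∧ i.1 p ≠ j.1 p), (1:ℝ) / p := by
        rw [eventually_all_finset]
        intro i hi
        rw [eventually_all_finset]
        intro j hj
        by_cases hij : i = j
        · exact Eventually.of_forall fun N h => absurd hij h
        · filter_upwards [eventually_low (hs i hi j hj hij) c A] with N hN _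
          exact hN
      have hall : Tendsto (WD w {N | ∃ t ∈ s.powerset.filter (fun t => t.card = k),
          N ∈ {N | ∀ f ∈ t, ∀ f' ∈ t, f ≠ f' → ρ < topDist c f.1 f'.1 N}}) atTop (𝓝 0) := by
        apply WD_iUnion_tendsto hw
        intro t ht
        rw [mem_filter, mem_powerset] at ht
        have h1 := hk (t.map ⟨Subtype.val, Subtype.val_injective⟩) (by
          intro f hf
          rw [Finset.mem_map] at hf
          obtain ⟨x, _, rfl⟩ := hf
          exact x.2) (by rw [card_map]; exact ht.2)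
        refine Tendsto.congr (fun K => ?_) h1
        congr 1
        ext N
        simp only [Set.mem_ofPred_eq, Finset.mem_map, Function.Embedding.coeFn_mk]
        constructor
        · intro h f hf f' hf' hne'
          exact h f.1 ⟨f, hf, rfl⟩ f'.1 ⟨f', hf', rfl⟩ fun e => hne' (Subtype.ext e)
        · rintro h f ⟨x, hx, rfl⟩ f' ⟨x', hx', rfl⟩ hne'
          exact h x hx x' hx' fun e => hne' (by rw [e])
      refine WD_tendsto_zero hw hW ?_ hall
      filter_upwards [hlow, eventually_ge_atTop N₀] with N hN1 hN2 hN3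
      by_contra hcon
      refine absurd hN3 (not_lt.2 ?_)
      refine le_trans (le_of_eq ?_) (hcore N hN2 k s (fun i => i.1) (fun i _ => hF i.1 i.2) ?_ ?_)
      · congr!
      · intro i hi j hj hij
        refine (hN1 i hi j hj hij).trans (le_of_eq ?_)
        congr!
      · intro t ht htc
        by_contra hno
        push Not at hno
        apply hcon
        exact ⟨t, mem_filter.2 ⟨mem_powerset.2 ht, htc⟩, hno⟩
    · exact ⟨0, le_rfl, fun h => absurd h hne⟩
  choose M hM0 hM using hM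
  refine ⟨∑ H ∈ (range (m + 1)).powerset.filter (fun H => H.Nonempty), M H,
    sum_nonneg fun H _ => hM0 H, ?_⟩
  intro s hs
  have hall := WD_iUnion_tendsto hw ((range (m + 1)).powerset.filter (fun H => H.Nonempty))
    (fun H => {N | M H < ((s.filter fun i =>
        1 / ((m:ℝ) + 1) ≤ |LA (prodSeq i.1 H) N|).card : ℝ)})
    (fun H hH => hM H (Finset.mem_filter.mp hH).2 s hs)
  refine WD_tendsto_zero hw hW (Eventually.of_forall fun N hN => ?_) hall
  by_contra hcon
  simp only [Set.mem_ofPred_eq, not_exists, not_and, not_lt] at hcon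
  have hN' : (∑ H ∈ (range (m + 1)).powerset.filter (fun H => H.Nonempty), M H) <
    ((s.filter fun x => N ∈ Bds m x.1).card : ℝ) := hN
  refine absurd hN' (not_lt.2 ?_)
  have hsub : (s.filter fun x => N ∈ Bds m x.1) ⊆
      ((range (m + 1)).powerset.filter (fun H => H.Nonempty)).biUnion
        fun H => s.filter fun i => 1 / ((m:ℝ) + 1) ≤ |LA (prodSeq i.1 H) N| := by
    intro x hx
    rw [Finset.mem_filter] at hx
    obtain ⟨hxs, H, hH, hne, hle⟩ := hx
    rw [Finset.mem_biUnion]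
    exact ⟨H, Finset.mem_filter.mpr ⟨hH, hne⟩, Finset.mem_filter.mpr ⟨hxs, hle⟩⟩
  have c1 : ((s.filter fun x => N ∈ Bds m x.1).card : ℝ)
      ≤ ((((range (m + 1)).powerset.filter (fun H => H.Nonempty)).biUnion
        fun H => s.filter fun i => 1 / ((m:ℝ) + 1) ≤ |LA (prodSeq i.1 H) N|).card : ℝ) := by
    exact_mod_cast Finset.card_le_card hsub
  have c2 : ((((range (m + 1)).powerset.filter (fun H => H.Nonempty)).biUnion
        fun H => s.filter fun i => 1 / ((m:ℝ) + 1) ≤ |LA (prodSeq i.1 H) N|).card : ℝ) ≤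
      ((∑ H ∈ (range (m + 1)).powerset.filter (fun H => H.Nonempty),
        (s.filter fun i => 1 / ((m:ℝ) + 1) ≤ |LA (prodSeq i.1 H) N|).card : ℕ) : ℝ) := by
    exact_mod_cast Finset.card_biUnion_le
  have c3 : ((∑ H ∈ (range (m + 1)).powerset.filter (fun H => H.Nonempty),
        (s.filter fun i => 1 / ((m:ℝ) + 1) ≤ |LA (prodSeq i.1 H) N|).card : ℕ) : ℝ) ≤
      ∑ H ∈ (range (m + 1)).powerset.filter (fun H => H.Nonempty), M H := by
    push_cast
    exact Finset.sum_le_sum hcon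
  exact (c1.trans c2).trans c3

/-- **All but countably many classes of a tame family are good.** -/
theorem tame_main {w : ℕ → ℝ} (hw : ∀ n, 0 ≤ w n) (hW : Tendsto (tot w) atTop atTop)
    {F : Set (ℕ → ℤˣ)} (hF : ∀ f ∈ F, MultS f) (hT : Tame w F) :
    ∃ C : Set (ℕ → ℤˣ), C.Countable ∧ C ⊆ F ∧ ∀ f ∈ F,
      (∀ c ∈ C, Tendsto (fun N => PS (fun p => f p ≠ c p) 0 N) atTop atTop) →
      ∃ S : Set ℕ, (∀ ε : ℝ, 0 < ε → ∃ᶠ K in atTop, 1 - ε ≤ WD w S K) ∧
        VanishL (atTop ⊓ 𝓟 S) f := by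
  classical
  set far : F → F → Prop := fun f f' =>
    Tendsto (fun N => PS (fun p => f.1 p ≠ f'.1 p) 0 N) atTop atTop with hfar
  have hsym : ∀ x y, far x y → far y x := by
    intro x y h
    simp only [hfar] at h ⊢
    have h1 : (fun p => y.1 p ≠ x.1 p) = fun p => x.1 p ≠ y.1 p := by
      funext p
      exact propext ne_comm
    rw [h1]
    exact h
  have hnet : ∀ m l : ℕ, ∃ s : Finset F, ∀ x : F,
      (∀ᶠ K in atTop, 1 / ((l:ℝ) + 1) ≤ WD w (Bds m x.1) K) → ∃ y ∈ s, y = x ∨ ¬ far y x := by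
    intro m l
    obtain ⟨M, hM0, hM⟩ := few_tame hw hW hF hT m
    refine finite_netW hw hW (fun x : F => Bds m x.1) far hsym M hM0 ?_ _ (by positivity)
    intro s hs
    refine (hM s hs).congr fun K => ?_
    congr!
  choose s hs using hnet
  refine ⟨⋃ m : ℕ, ⋃ l : ℕ, (Subtype.val '' (s m l : Set F)), ?_, ?_, ?_⟩
  · refine Set.countable_iUnion fun m => Set.countable_iUnion fun l => ?_
    exact (Finset.countable_toSet _).image _
  · intro c hc
    simp only [Set.mem_iUnion] at hc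
    obtain ⟨m, l, y, _, rfl⟩ := hc
    exact y.2
  · intro f hf hC
    apply good_of_densW hw hW f
    intro m η hη hnot
    obtain ⟨l, hl⟩ := exists_nat_one_div_lt hη
    have h1 : ∀ᶠ K in atTop, 1 / ((l:ℝ) + 1) ≤ WD w (Bds m (⟨f, hf⟩ : F).1) K := by
      filter_upwards [hnot] with K hK
      rw [not_lt] at hK
      exact hl.le.trans hK
    obtain ⟨y, hy, hyy⟩ := hs m l ⟨f, hf⟩ h1
    have hyC : y.1 ∈ ⋃ m : ℕ, ⋃ l : ℕ, (Subtype.val '' (s m l : Set F)) := by
      simp only [Set.mem_iUnion]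
      exact ⟨m, l, y, hy, rfl⟩
    have h2 := hC y.1 hyC
    have h3 : far y ⟨f, hf⟩ := hsym _ _ h2
    rcases hyy with h | h
    · rw [h] at h2
      have h4 : (fun N => PS (fun p => f p ≠ f p) 0 N) = fun _ => 0 := by
        funext N
        unfold PS
        refine sum_eq_zero fun p hp => ?_
        simp at hp
      rw [h4] at h2
      exact not_tendsto_const_atTop _ _ h2
    · exact h h3

end Pool.Agent.Lib.P4a7640T
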