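import Mathlib
import Pool.Agent.Lib.P4a7640T.ApLog
import Pool.Agent.Lib.P4a7640T.Main

/-!
# Functions close to a Dirichlet character at almost all scales
-/

open Finset Filter Topology
open Pool.Agent.Lib.P4a7640
open Pool.Agent.Lib.P4a7640D

namespace Pool.Agent.Lib.P4a7640T

/-- the sign `(-1)^#{p ∈ D : p ∣ n}` -/
def dsg (D : Finset ℕ) (n : ℕ) : ℤˣ := (-1) ^ (D.filter fun p => p ∣ n).card

lemma dsg_mult {D : Finset ℕ} (hD : ∀ p ∈ D, p.Prime) : MultS (dsg D) := by
  intro m n _ _ hco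
  unfold dsg
  rw [Cmp.filter_mul hD, card_union_of_disjoint (Cmp.disjoint_filter_coprime hD hco), pow_add]

lemma dsg_prime {D : Finset ℕ} (hD : ∀ p ∈ D, p.Prime) {p : ℕ} (hp : p.Prime) [Decidable (p ∈ D)] :
    dsg D p = if p ∈ D then -1 else 1 := by
  unfold dsg
  have h1 : (D.filter fun r => r ∣ p) = if p ∈ D then {p} else ∅ := by
    ext r
    rw [mem_filter]
    constructor
    · rintro ⟨h1, h2⟩
      have h3 : r = p := (Nat.prime_dvd_prime_iff_eq (hD r h1) hp).1 h2
      have h4 : p ∈ D := h3 ▸ h1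
      rw [if_pos h4, mem_singleton]
      exact h3
    · intro h1
      split_ifs at h1 with h2
      · rw [mem_singleton] at h1
        rw [h1]
        exact ⟨h2, dvd_rfl⟩
      · simp at h1
  rw [h1]
  split_ifs <;> simp

lemma prodSeq_dsg (H D : Finset ℕ) (hH : ∀ p ∈ D, ∀ h ∈ H, h < p) (n : ℕ) :
    prodSeq (dsg D) H n = uu H D n := by
  unfold uu KK prodSeq dsg
  have h1 : (D.filter fun p => ∃ h ∈ H, p ∣ n + h) =
      H.biUnion (fun h => D.filter fun p => p ∣ n + h) := by
    ext p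
    simp only [Finset.mem_filter, Finset.mem_biUnion]
    constructor
    · rintro ⟨hp, h, hh, hd⟩
      exact ⟨h, hh, hp, hd⟩
    · rintro ⟨h, hh, hp, hd⟩
      exact ⟨hp, h, hh, hd⟩
  have h2 : (H.biUnion (fun h => D.filter fun p => p ∣ n + h)).card =
      ∑ h ∈ H, (D.filter fun p => p ∣ n + h).card := by
    apply Finset.card_biUnion
    intro h hh h' hh' hne
    show Disjoint (D.filter fun p => p ∣ n + h) (D.filter fun p => p ∣ n + h')
    rw [Finset.disjoint_left]
    intro p hp hp'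
    rw [Finset.mem_filter] at hp hp'
    have hz := hH p hp.1 h hh
    have hz' := hH p hp.1 h' hh'
    rcases lt_or_gt_of_ne hne with hlt | hlt
    · have h3 : p ∣ (n + h') - (n + h) := Nat.dvd_sub hp'.2 hp.2
      have h4 : (n + h') - (n + h) = h' - h := by omega
      rw [h4] at h3
      have h5 := Nat.le_of_dvd (by omega) h3
      omega
    · have h3 : p ∣ (n + h) - (n + h') := Nat.dvd_sub hp.2 hp'.2
      have h4 : (n + h) - (n + h') = h - h' := by omega
      rw [h4] at h3
      have h5 := Nat.le_of_dvd (by omega) h3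
      omega
  rw [h1, h2, ← Finset.prod_pow_eq_pow_sum]
  refine Finset.prod_congr rfl fun h _ => ?_
  simp [sg]

/-- averages against a periodic weight -/
lemma LA_periodic {P : ℕ → ℝ} {R : ℕ} (hR : 0 < R) (hper : ∀ n, P (n + R) = P n)
    (hP : ∀ n, |P n| ≤ 1) (u : ℕ → ℝ) (N : ℕ) (e : ℝ)
    (h : ∀ a, |LA (fun n => (if n ≡ a [MOD R] then (1:ℝ) else 0) * u n) N| ≤ e / R) :
    |LA (fun n => P n * u n) N| ≤ e := by
  have h1 : (fun n => P n * u n) = fun n => ∑ a ∈ Finset.range R,
      P a * ((if n ≡ a [MOD R] then (1:ℝ) else 0) * u n) := by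
    funext n
    rw [Finset.sum_eq_single (n % R)]
    · rw [if_pos (Nat.mod_modEq n R).symm, one_mul, mod_eq_of_periodic hper]
    · intro a ha hne
      rw [if_neg, zero_mul, mul_zero]
      intro hcon
      apply hne
      have h2 : n % R = a % R := hcon
      rw [h2, Nat.mod_eq_of_lt (Finset.mem_range.mp ha)]
    · intro h
      exact absurd (Finset.mem_range.mpr (Nat.mod_lt n hR)) h
  rw [h1, LA_sum]
  have h2 : ∀ a ∈ Finset.range R, |LA (fun n => P a * ((if n ≡ a [MOD R] then (1:ℝ) else 0) * u n))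
      N| ≤ e / R := by
    intro a _
    have h3 : LA (fun n => P a * ((if n ≡ a [MOD R] then (1:ℝ) else 0) * u n)) N =
        P a * LA (fun n => (if n ≡ a [MOD R] then (1:ℝ) else 0) * u n) N := LA_const_mul _ _ _
    rw [h3, abs_mul]
    calc |P a| * |LA (fun n => (if n ≡ a [MOD R] then (1:ℝ) else 0) * u n) N|
        ≤ 1 * (e / R) := mul_le_mul (hP a) (h a) (abs_nonneg _) zero_le_one
      _ = e / R := one_mul _
  refine (Finset.abs_sum_le_sum_abs _ _).trans ((Finset.sum_le_sum h2).trans (le_of_eq ?_))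
  rw [Finset.sum_const, Finset.card_range, nsmul_eq_mul]
  have hR0 : (R:ℝ) ≠ 0 := by exact_mod_cast hR.ne'
  field_simp

open Classical in
/-- The correlations of a function that is close to a character at the scale `N` and far from it at
the small primes are small. -/
theorem near_char_core {f g : ℕ → ℤˣ} (hf : MultS f) {q : ℕ} (hq : 0 < q)
    (χ : DirichletCharacter ℂ q) (hg : ∀ p : ℕ, p.Prime → ¬ p ∣ q → sgC (g p) = χ (p : ZMod q))
    (hfar : Tendsto (fun N => PS (fun p => f p ≠ g p) 0 N) atTop atTop)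
    (H : Finset ℕ) (hne : H.Nonempty) (ε : ℝ) (hε : 0 < ε) :
    ∃ (c N₀ : ℕ) (ρ : ℝ), 0 < ρ ∧ ∀ N ≥ N₀, topDist c f g N ≤ ρ →
      |LA (prodSeq f H) N| < ε := by
  obtain ⟨z₀, A, hA, hsieve⟩ := log_sieve_ap H hne (ε / 4) (by positivity)
  have hK : (1:ℝ) ≤ H.card := by exact_mod_cast hne.card_pos
  have hK0 : (0:ℝ) < H.card := by linarith
  set e : ℝ := ε / (64 * H.card) with he
  have he0 : 0 < e := by positivity
  set z : ℕ := max (max z₀ q) (max (H.sup id + 1) (⌈1 / e⌉₊ + 1)) with hz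
  have hz1 : z₀ ≤ z := (le_max_left _ _).trans (le_max_left _ _)
  have hz2 : q ≤ z := (le_max_right _ _).trans (le_max_left _ _)
  have hz3 : H.sup id + 1 ≤ z := (le_max_left _ _).trans (le_max_right _ _)
  have hz4 : ⌈1 / e⌉₊ + 1 ≤ z := (le_max_right _ _).trans (le_max_right _ _)
  have hz0 : 0 < z := by omega
  have hzR : (0:ℝ) < z := by exact_mod_cast hz0
  have hze : 1 / (z:ℝ) ≤ e := by
    rw [div_le_iff₀ hzR]
    have h1 : 1 / e ≤ z := by
      refine (Nat.le_ceil _).trans ?_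
      exact_mod_cast (by omega : ⌈1 / e⌉₊ ≤ z)
    rw [div_le_iff₀ he0] at h1
    linarith
  obtain ⟨m, hm⟩ : ∃ m : ℕ, (z:ℝ) * (1 / 2) ^ (m + 1) ≤ e := by
    obtain ⟨m, hm⟩ := exists_pow_lt_of_lt_one (show 0 < e / z by positivity)
      (show (1/2:ℝ) < 1 by norm_num)
    refine ⟨m, ?_⟩
    rw [lt_div_iff₀ hzR] at hm
    have h1 : ((1:ℝ) / 2) ^ (m + 1) ≤ (1 / 2) ^ m :=
      pow_le_pow_of_le_one (by norm_num) (by norm_num) (Nat.le_succ m)
    nlinarith
  set R : ℕ := q * QQ z m with hR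
  have hR0 : 0 < R := Nat.mul_pos hq (QQ_pos z m)
  obtain ⟨c, N₁, hc⟩ := hsieve R hR0
  have hlow := eventually_low hfar (2 ^ c) (A + z)
  have hlog : ∀ᶠ N : ℕ in atTop, 3 / Real.log N ≤ 1 := by
    have h1 : Tendsto (fun N : ℕ => 3 / Real.log N) atTop (𝓝 0) := tendsto_logN.const_div_atTop _
    exact h1.eventually_le_const one_pos
  have hlog2 : ∀ᶠ N : ℕ in atTop, 3 * ((H.sup id : ℕ) : ℝ) / Real.log N ≤ e := by
    have h1 : Tendsto (fun N : ℕ => 3 * ((H.sup id : ℕ) : ℝ) / Real.log N) atTop (𝓝 0) :=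
      tendsto_logN.const_div_atTop _
    exact h1.eventually_le_const he0
  obtain ⟨N₀, hN₀⟩ := eventually_atTop.1 (((hlow.and hlog).and hlog2).and
    ((eventually_ge_atTop N₁).and ((eventually_ge_atTop z).and (eventually_ge_atTop 3))))
  refine ⟨2 ^ c, N₀, e, he0, fun N hN htop => ?_⟩
  obtain ⟨⟨⟨h1, h2⟩, h3⟩, h4, h5, h6⟩ := hN₀ N hN
  set D : Finset ℕ := (Icc 1 N).filter
    (fun p => p.Prime ∧ z < p ∧ p ^ (2 ^ c) ≤ N ∧ f p ≠ g p) with hD
  have hDp : ∀ p ∈ D, p.Prime ∧ z < p ∧ p ^ (2 ^ c) ≤ N ∧ f p ≠ g p := fun p hp =>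
    (mem_filter.1 hp).2
  have hprime : ∀ p ∈ D, p.Prime := fun p hp => (hDp p hp).1
  have hmass : A ≤ ∑ p ∈ D, (1:ℝ) / p := by
    have hsub : (Icc 1 N).filter (fun p => p.Prime ∧ p ^ (2 ^ c) ≤ N ∧ f p ≠ g p) ⊆
        D ∪ Icc 1 z := by
      intro p hp
      rw [mem_filter, mem_Icc] at hp
      rw [mem_union, hD, mem_filter, mem_Icc, mem_Icc]
      by_cases hpz : p ≤ z
      · exact Or.inr ⟨hp.1.1, hpz⟩
      · exact Or.inl ⟨hp.1, hp.2.1, not_le.1 hpz, hp.2.2.1, hp.2.2.2⟩
    have k1 := (h1.trans (sum_le_sum_of_subset_of_nonneg hsub (fun p _ _ => by positivity)))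
    have k2 := Finset.sum_union_inter (s₁ := D) (s₂ := Icc 1 z) (f := fun p : ℕ => (1:ℝ) / p)
    have k3 : 0 ≤ ∑ p ∈ D ∩ Icc 1 z, (1:ℝ) / p := Finset.sum_nonneg fun p _ => by positivity
    have k4 : ∑ p ∈ Icc 1 z, (1:ℝ) / p ≤ z := by
      calc ∑ p ∈ Icc 1 z, (1:ℝ) / p ≤ ∑ p ∈ Icc 1 z, (1:ℝ) := by
            refine Finset.sum_le_sum fun p hp => ?_
            rw [Finset.mem_Icc] at hp
            have : (1:ℝ) ≤ p := by exact_mod_cast hp.1
            rw [div_le_one (by linarith)]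
            exact this
        _ = z := by simp
    linarith
  have hHp : ∀ p ∈ D, ∀ h ∈ H, h < p := by
    intro p hp h hh
    have k1 := (hDp p hp).2.1
    have k2 : h ≤ H.sup id := Finset.le_sup (f := id) hh
    omega
  have hcop : ∀ p ∈ D, Nat.Coprime R p := by
    intro p hp
    have k1 := hDp p hp
    rw [Nat.coprime_comm, Nat.Prime.coprime_iff_not_dvd k1.1, hR]
    intro hdiv
    rcases (Nat.Prime.dvd_mul k1.1).1 hdiv with k2 | k2
    · have := Nat.le_of_dvd hq k2
      omega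
    · have k3 : p ∣ z.factorial := k1.1.dvd_of_dvd_pow k2
      have := (Nat.Prime.dvd_factorial k1.1).1 k3
      omega
  have hsv := hc N h4 D (fun p hp => ⟨(hDp p hp).1, hz1.trans (hDp p hp).2.1.le,
    (hDp p hp).2.2.1, hcop p hp⟩) hmass
  have hh : MultS fun n => f n * dsg D n := by
    intro a b ha hb hab
    show f (a * b) * dsg D (a * b) = f a * dsg D a * (f b * dsg D b)
    rw [hf a b ha hb hab, dsg_mult hprime a b ha hb hab]
    exact mul_mul_mul_comm _ _ _ _
  have hdiff := LA_diff_le (f := f) (g := dsg D) hh χ z m H (N := N) (by omega)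
  set P : ℕ → ℝ := fun n => ∏ j ∈ H, PP (fun n => f n * dsg D n) χ z m (n + j) with hP
  have hmain : |LA (fun n => P n * prodSeq (dsg D) H n) N| ≤ ε / 4 := by
    refine LA_periodic hR0 ?_ ?_ _ N (ε / 4) ?_
    · intro n
      exact prod_PP_periodic _ χ z m H n
    · intro n
      exact abs_prod_PP _ χ z m H n
    · intro a
      have k1 := hsv a
      have k2 : (fun n => (if n ≡ a [MOD R] then (1:ℝ) else 0) * prodSeq (dsg D) H n) =
          fun n => (if n ≡ a [MOD R] then (1:ℝ) else 0) * uu H D n := by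
        funext n
        rw [prodSeq_dsg H D hHp]
      rw [k2]
      exact k1
  have hEB : EB (fun p => sgC (f p * dsg D p) ≠ χ (p : ZMod q)) z m N ≤ e + e + e := by
    have k1 : PS (fun p => sgC (f p * dsg D p) ≠ χ (p : ZMod q)) z N ≤ e := by
      refine le_trans ?_ htop
      unfold topDist
      apply PS_le_sum
      intro p hpz hpN hp hB
      have hpq : ¬ p ∣ q := by
        intro k
        have := Nat.le_of_dvd hq k
        omega
      have k2 := hg p hp hpq
      rw [dsg_prime hprime hp] at hB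
      by_cases k3 : f p = g p
      · exfalso
        apply hB
        have k4 : p ∉ D := fun k => (hDp p k).2.2.2 k3
        rw [if_neg k4, mul_one, k3, k2]
      · rw [mem_filter, mem_Icc]
        refine ⟨⟨hp.one_le, hpN⟩, hp, ?_, k3⟩
        by_contra k4
        rw [not_lt] at k4
        apply hB
        have k5 : p ∈ D := by
          rw [hD, mem_filter, mem_Icc]
          exact ⟨⟨hp.one_le, hpN⟩, hp, hpz, k4, k3⟩
        rw [if_pos k5, ← k2]
        congr 1
        rcases Int.units_eq_one_or (f p) with k6 | k6 <;>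
          rcases Int.units_eq_one_or (g p) with k7 | k7 <;> rw [k6, k7] at k3 ⊢
        · exact absurd rfl k3
        · simp
        · simp
        · exact absurd rfl k3
    have k2 := EB_le' (fun p => sgC (f p * dsg D p) ≠ χ (p : ZMod q)) (z := z) (m := m) (N := N)
      hz0 h5 k1
    linarith
  have hsum : ∑ j ∈ H, 2 * ((1 + 3 / Real.log N) *
      EB (fun p => sgC (f p * dsg D p) ≠ χ (p : ZMod q)) z m N + 3 * (j:ℝ) / Real.log N) ≤
      ε / 2 := by
    have hlogpos : 0 ≤ Real.log N := Real.log_natCast_nonneg N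
    have k1 : ∀ j ∈ H, 2 * ((1 + 3 / Real.log N) *
      EB (fun p => sgC (f p * dsg D p) ≠ χ (p : ZMod q)) z m N + 3 * (j:ℝ) / Real.log N) ≤
        14 * e := by
      intro j hj
      have k2 : 3 * (j:ℝ) / Real.log N ≤ e := by
        refine le_trans ?_ h3
        apply div_le_div_of_nonneg_right _ hlogpos
        have : (j:ℝ) ≤ ((H.sup id : ℕ) : ℝ) := by
          exact_mod_cast Finset.le_sup (f := id) hj
        linarith
      have k3 : (1 + 3 / Real.log N) *
          EB (fun p => sgC (f p * dsg D p) ≠ χ (p : ZMod q)) z m N ≤ 2 * (e + e + e) := by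
        have k4 : 0 ≤ 3 / Real.log N := by positivity
        have k5 := mul_le_mul_of_nonneg_left hEB (show 0 ≤ 1 + 3 / Real.log N by linarith)
        have k6 : (1 + 3 / Real.log N) * (e + e + e) ≤ 2 * (e + e + e) :=
          mul_le_mul_of_nonneg_right (by linarith) (by positivity)
        exact k5.trans k6
      linarith
    refine (Finset.sum_le_sum k1).trans ?_
    rw [Finset.sum_const, nsmul_eq_mul, he]
    have : (H.card : ℝ) * (14 * (ε / (64 * H.card))) = 14 / 64 * ε := by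
      field_simp
    rw [this]
    linarith
  have k1 := abs_sub_abs_le_abs_sub (LA (prodSeq f H) N)
    (LA (fun n => P n * prodSeq (dsg D) H n) N)
  have k2 : |LA (prodSeq f H) N - LA (fun n => P n * prodSeq (dsg D) H n) N| ≤ ε / 2 :=
    hdiff.trans hsum
  linarith

/-- The bad scales of a function that is close to a character at almost all scales and at infinite
distance from it have density zero. -/
theorem near_char_bad {w : ℕ → ℝ} (hw : ∀ n, 0 ≤ w n) (hW : Tendsto (tot w) atTop atTop)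
    {f g : ℕ → ℤˣ} (hf : MultS f) {q : ℕ} (hq : 0 < q)
    (χ : DirichletCharacter ℂ q) (hg : ∀ p : ℕ, p.Prime → ¬ p ∣ q → sgC (g p) = χ (p : ZMod q))
    (hfar : Tendsto (fun N => PS (fun p => f p ≠ g p) 0 N) atTop atTop)
    (hclose : Close w f g) (m : ℕ) : Tendsto (WD w (Bds m f)) atTop (𝓝 0) := by
  have h1 : ∀ H : Finset ℕ, H.Nonempty →
      Tendsto (WD w {N | 1 / ((m:ℝ) + 1) ≤ |LA (prodSeq f H) N|}) atTop (𝓝 0) := by
    intro H hne
    obtain ⟨c, N₀, ρ, hρ, hcore⟩ := near_char_core hf hq χ hg hfar H hne (1 / ((m:ℝ) + 1))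
      (by positivity)
    refine WD_tendsto_zero hw hW ?_ (hclose c ρ hρ)
    filter_upwards [eventually_ge_atTop N₀] with N hN hbad
    by_contra hcon
    exact absurd (hcore N hN (not_lt.1 hcon)) (not_lt.2 hbad)
  have h2 := WD_iUnion_tendsto hw ((range (m + 1)).powerset.filter (fun H => H.Nonempty))
    (fun H => {N | 1 / ((m:ℝ) + 1) ≤ |LA (prodSeq f H) N|})
    (fun H hH => h1 H (Finset.mem_filter.mp hH).2)
  refine WD_tendsto_zero hw hW (Eventually.of_forall fun N hN => ?_) h2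
  obtain ⟨H, hH, hne, hle⟩ := hN
  exact ⟨H, Finset.mem_filter.2 ⟨hH, hne⟩, hle⟩

end Pool.Agent.Lib.P4a7640T
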