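import Mathlib
import Pool.Agent.Lib.P4a7640T.Dens

/-!
# A criterion for closeness at `log log`-almost all scales

Module P4a7640T.CloseLog.

Proof.  Let `w N = 1 / (N * log N)` (so `w 0 = w 1 = 0` in Lean), `W K = tot w K`.
(0) `W K → ∞`; more precisely `log log K ≤ C₁ * (1 + W K)` for `K ≥ 3` (compare with the integral:
`log log (N+1) - log log N ≤ 1 / (N log N)` for `N ≥ 2`, by the mean value theorem or by
`log (1 + x) ≤ x` applied twice: `log (log (N+1) / log N) ≤ (log (N+1) - log N) / log N ≤ 1 / (N log N)`).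
(1) For a prime `p`: `∑ N, p ≤ N < p ^ c, w N ≤ C₂` with `C₂` depending on `c` only: for `N ≥ 3`
`1 / (N log N) ≤ 2 * (log log N - log log (N - 1))`, or simply use dyadic blocks
`2^i ≤ N < 2^(i+1)`: the block contributes at most `1 / (i log 2)`, and
`∑ i ∈ [log₂ p, c log₂ p + c] 1 / i` is bounded.
(2) Exchange of summation:
`∑ N ≤ K, w N * topDist c f h N = ∑ p ≤ K, f p ≠ h p, (1/p) * ∑ N, p ≤ N ≤ K, N < p ^ c, w N
   ≤ C₂ * PS (f ≠ h) 0 K`.
(3) Markov: `ρ * wt w {N | ρ < topDist c f h N} K ≤ C₂ * PS (f ≠ h) 0 K`, hence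
`WD w {...} K ≤ (C₂ / ρ) * PS 0 K / W K → 0` by (0) and the hypothesis.
-/

open Finset Filter Topology
open Pool.Agent.Lib.P4a7640

namespace Pool.Agent.Lib.P4a7640T

/-- the weight that defines the `log log` density -/
noncomputable def wll (N : ℕ) : ℝ := 1 / (N * Real.log N)

namespace CloseLogAux

lemma wll_nonneg (N : ℕ) : 0 ≤ wll N := by
  unfold wll
  have := Real.log_natCast_nonneg N
  positivity

lemma log_pos_of {N : ℕ} (hN : 2 ≤ N) : 0 < Real.log N :=
  Real.log_pos (by exact_mod_cast hN)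

lemma diff_bounds {N : ℕ} (hN : 1 ≤ N) :
    1 / ((N:ℝ) + 1) ≤ Real.log ((N + 1 : ℕ) : ℝ) - Real.log N ∧
      Real.log ((N + 1 : ℕ) : ℝ) - Real.log N ≤ 1 / (N:ℝ) := by
  have h0 : (0:ℝ) < N := by exact_mod_cast hN
  have h1 : (0:ℝ) < ((N + 1 : ℕ) : ℝ) := by positivity
  constructor
  · have h2 := Real.log_le_sub_one_of_pos (div_pos h0 h1)
    rw [Real.log_div h0.ne' h1.ne'] at h2
    have h3 : (N:ℝ) / ((N + 1 : ℕ) : ℝ) - 1 = - (1 / ((N:ℝ) + 1)) := by
      push_cast
      field_simp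
      ring
    rw [h3] at h2
    linarith
  · have h2 := Real.log_le_sub_one_of_pos (div_pos h1 h0)
    rw [Real.log_div h1.ne' h0.ne'] at h2
    have h3 : ((N + 1 : ℕ) : ℝ) / (N:ℝ) - 1 = 1 / (N:ℝ) := by
      push_cast
      field_simp
      ring
    rw [h3] at h2
    exact h2

lemma ll_low {N : ℕ} (hN : 2 ≤ N) :
    Real.log (Real.log ((N + 1 : ℕ) : ℝ)) - Real.log (Real.log N) ≤ wll N := by
  have h0 := log_pos_of hN
  have h1 := log_pos_of (N := N + 1) (by omega)
  have hNr : (0:ℝ) < N := by exact_mod_cast (by omega : 0 < N)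
  obtain ⟨_, h3⟩ := diff_bounds (N := N) (by omega)
  have h2 := Real.log_le_sub_one_of_pos (div_pos h1 h0)
  rw [Real.log_div h1.ne' h0.ne'] at h2
  refine h2.trans ?_
  unfold wll
  have e : Real.log ((N + 1 : ℕ) : ℝ) / Real.log N - 1 =
      (Real.log ((N + 1 : ℕ) : ℝ) - Real.log N) / Real.log N := by
    field_simp
  rw [e, ← div_div]
  exact div_le_div_of_nonneg_right h3 h0.le

lemma ll_up {N : ℕ} (hN : 2 ≤ N) :
    wll (N + 1) ≤ Real.log (Real.log ((N + 1 : ℕ) : ℝ)) - Real.log (Real.log N) := by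
  have h0 := log_pos_of hN
  have h1 := log_pos_of (N := N + 1) (by omega)
  obtain ⟨h3, _⟩ := diff_bounds (N := N) (by omega)
  have h2 := Real.log_le_sub_one_of_pos (div_pos h0 h1)
  rw [Real.log_div h0.ne' h1.ne'] at h2
  unfold wll
  have e : Real.log N / Real.log ((N + 1 : ℕ) : ℝ) - 1 =
      - ((Real.log ((N + 1 : ℕ) : ℝ) - Real.log N) / Real.log ((N + 1 : ℕ) : ℝ)) := by
    field_simp
    ring
  rw [e] at h2
  have h4 : 1 / ((N:ℝ) + 1) / Real.log ((N + 1 : ℕ) : ℝ) ≤
      (Real.log ((N + 1 : ℕ) : ℝ) - Real.log N) / Real.log ((N + 1 : ℕ) : ℝ) :=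
    div_le_div_of_nonneg_right h3 h1.le
  rw [div_div] at h4
  have e2 : ((N + 1 : ℕ) : ℝ) = (N:ℝ) + 1 := by push_cast; rfl
  rw [e2] at h2 h4 ⊢
  linarith

lemma loglog_le_tot {K : ℕ} (hK : 1 ≤ K) : Real.log (Real.log ((K + 1 : ℕ) : ℝ)) ≤ tot wll K := by
  induction K, hK using Nat.le_induction with
  | base =>
    have h1 : Real.log ((1 + 1 : ℕ) : ℝ) < 1 := by
      norm_num
      exact Real.log_two_lt_d9.trans (by norm_num)
    have h2 : 0 < Real.log ((1 + 1 : ℕ) : ℝ) := log_pos_of (N := 1 + 1) (by norm_num)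
    have h3 : Real.log (Real.log ((1 + 1 : ℕ) : ℝ)) ≤ 0 := Real.log_nonpos h2.le h1.le
    exact h3.trans (tot_nonneg wll_nonneg 1)
  | succ K hK ih =>
    have h1 := ll_low (N := K + 1) (by omega)
    have h2 : tot wll (K + 1) = tot wll K + wll (K + 1) := by
      unfold tot
      rw [Finset.sum_Icc_succ_top (by omega)]
    rw [h2]
    linarith

/-- The weight of the block `p ≤ N < p ^ c`. -/
lemma block_le {p : ℕ} (hp : 2 ≤ p) (c : ℕ) :
    ∑ N ∈ Finset.Ico p (p ^ c), wll N ≤ 1 + Real.log c := by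
  have hlc := Real.log_natCast_nonneg c
  rcases Nat.lt_or_ge p (p ^ c) with hlt | hge
  · have key : ∀ b, p ≤ b → ∑ N ∈ Finset.Ico p (b + 1), wll N ≤
        1 + (Real.log (Real.log b) - Real.log (Real.log p)) := by
      intro b hb
      induction b, hb using Nat.le_induction with
      | base =>
        rw [Nat.Ico_succ_singleton, Finset.sum_singleton, sub_self, add_zero]
        unfold wll
        have h1 : (2:ℝ) ≤ p := by exact_mod_cast hp
        have h2 : Real.log 2 ≤ Real.log p := Real.log_le_log (by norm_num) h1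
        have h3 := Real.log_two_gt_d9
        have h4 : (1:ℝ) ≤ p * Real.log p := by nlinarith
        rw [div_le_one (by linarith)]
        exact h4
      | succ b hb ih =>
        rw [Finset.sum_Ico_succ_top (by omega)]
        have h1 := ll_up (N := b) (by omega)
        linarith
    obtain ⟨b, hb⟩ : ∃ b, p ^ c = b + 1 := ⟨p ^ c - 1, by omega⟩
    rw [hb]
    refine (key b (by omega)).trans ?_
    have hp0 := log_pos_of hp
    have hc0 : c ≠ 0 := by
      rintro rfl
      simp at hlt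
      omega
    have hcr : (0:ℝ) < c := by exact_mod_cast Nat.pos_of_ne_zero hc0
    have h1 : Real.log (Real.log b) ≤ Real.log (Real.log ((p ^ c : ℕ) : ℝ)) := by
      have hb2 : 2 ≤ b := by omega
      apply Real.log_le_log (log_pos_of hb2)
      apply Real.log_le_log (by exact_mod_cast (by omega : 0 < b))
      exact_mod_cast (by omega : b ≤ p ^ c)
    have h2 : Real.log (Real.log ((p ^ c : ℕ) : ℝ)) = Real.log c + Real.log (Real.log p) := by
      push_cast
      rw [Real.log_pow, Real.log_mul hcr.ne' hp0.ne']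
    linarith
  · rw [Finset.Ico_eq_empty (by omega), Finset.sum_empty]
    linarith

lemma topDist_nonneg (c : ℕ) (f h : ℕ → ℤˣ) (N : ℕ) : 0 ≤ topDist c f h N := by
  unfold topDist
  exact sum_nonneg fun p _ => by positivity

lemma exchange (c : ℕ) (f h : ℕ → ℤˣ) (K : ℕ) :
    ∑ N ∈ Icc 1 K, wll N * topDist c f h N ≤ (1 + Real.log c) * PS (fun p => f p ≠ h p) 0 K := by
  classical
  have h1 : ∀ N ∈ Icc 1 K, wll N * topDist c f h N =
      ∑ p ∈ Icc 1 K, if p ≤ N ∧ p.Prime ∧ N < p ^ c ∧ f p ≠ h p then wll N * (1 / (p:ℝ)) else 0 := by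
    intro N hN
    rw [mem_Icc] at hN
    unfold topDist
    rw [mul_sum, ← sum_filter]
    refine sum_congr ?_ fun _ _ => rfl
    ext p
    simp only [mem_filter, mem_Icc]
    constructor
    · rintro ⟨⟨a1, a2⟩, a3, a4, a5⟩
      exact ⟨⟨a1, by omega⟩, a2, a3, a4, a5⟩
    · rintro ⟨⟨a1, _⟩, a2, a3, a4, a5⟩
      exact ⟨⟨a1, a2⟩, a3, a4, a5⟩
  rw [sum_congr rfl h1, sum_comm]
  have h2 : PS (fun p => f p ≠ h p) 0 K =
      ∑ p ∈ Icc 1 K, if p.Prime ∧ f p ≠ h p then 1 / (p:ℝ) else 0 := by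
    unfold PS
    rw [← sum_filter]
    refine sum_congr ?_ fun _ _ => rfl
    ext p
    simp only [mem_filter, mem_Icc, mem_Ioc]
    constructor
    · rintro ⟨⟨a1, a2⟩, a3⟩
      exact ⟨⟨by omega, a2⟩, a3⟩
    · rintro ⟨⟨a1, a2⟩, a3⟩
      exact ⟨⟨by omega, a2⟩, a3⟩
  rw [h2, mul_sum]
  refine sum_le_sum fun p _ => ?_
  by_cases hp : p.Prime ∧ f p ≠ h p
  · rw [if_pos hp]
    have h3 : ∑ N ∈ Icc 1 K,
        (if p ≤ N ∧ p.Prime ∧ N < p ^ c ∧ f p ≠ h p then wll N * (1 / (p:ℝ)) else 0) ≤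
        ∑ N ∈ Finset.Ico p (p ^ c), wll N * (1 / (p:ℝ)) := by
      rw [← sum_filter]
      refine sum_le_sum_of_subset_of_nonneg ?_ fun N _ _ =>
        mul_nonneg (wll_nonneg N) (by positivity)
      intro N hN
      rw [mem_filter] at hN
      rw [Finset.mem_Ico]
      exact ⟨hN.2.1, hN.2.2.2.1⟩
    refine h3.trans ?_
    rw [← sum_mul]
    exact mul_le_mul_of_nonneg_right (block_le hp.1.two_le c) (by positivity)
  · rw [if_neg hp, mul_zero]
    apply le_of_eq
    refine sum_eq_zero fun N _ => ?_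
    rw [if_neg]
    rintro ⟨_, a1, _, a2⟩
    exact hp ⟨a1, a2⟩

lemma markov (c : ℕ) (f h : ℕ → ℤˣ) (ρ : ℝ) (K : ℕ) :
    ρ * wt wll {N | ρ < topDist c f h N} K ≤ ∑ N ∈ Icc 1 K, wll N * topDist c f h N := by
  classical
  unfold wt
  rw [mul_sum]
  have h1 : ∑ N ∈ (Icc 1 K).filter (fun N => N ∈ {N | ρ < topDist c f h N}), ρ * wll N ≤
      ∑ N ∈ (Icc 1 K).filter (fun N => N ∈ {N | ρ < topDist c f h N}),
        wll N * topDist c f h N := by
    refine sum_le_sum fun N hN => ?_
    rw [mem_filter] at hN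
    rw [mul_comm]
    exact mul_le_mul_of_nonneg_left (le_of_lt hN.2) (wll_nonneg N)
  refine le_trans (le_of_eq ?_) (h1.trans (sum_le_sum_of_subset_of_nonneg (filter_subset _ _)
    fun N _ _ => mul_nonneg (wll_nonneg N) (topDist_nonneg c f h N)))
  refine sum_congr ?_ fun _ _ => rfl
  ext N
  simp only [mem_filter]

end CloseLogAux

open CloseLogAux

theorem tot_wll : Tendsto (tot wll) atTop atTop := by
  have h1 : Tendsto (fun K : ℕ => Real.log (Real.log ((K + 1 : ℕ) : ℝ))) atTop atTop :=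
    (Real.tendsto_log_atTop.comp (Real.tendsto_log_atTop.comp tendsto_natCast_atTop_atTop)).comp
      (tendsto_add_atTop_nat 1)
  refine tendsto_atTop_mono' _ ?_ h1
  filter_upwards [eventually_ge_atTop 1] with K hK
  exact loglog_le_tot hK

theorem close_of_loglog (f h : ℕ → ℤˣ)
    (H : Tendsto (fun x : ℕ => PS (fun p => f p ≠ h p) 0 x / Real.log (Real.log x)) atTop (𝓝 0)) :
    Close wll f h := by
  intro c ρ hρ
  have hlc := Real.log_natCast_nonneg c
  have h1 : Tendsto (fun x : ℕ => ((1 + Real.log c) / ρ) *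
      (PS (fun p => f p ≠ h p) 0 x / Real.log (Real.log x))) atTop (𝓝 0) := by
    simpa using H.const_mul ((1 + Real.log c) / ρ)
  refine squeeze_zero' (Eventually.of_forall fun K => WD_nonneg wll_nonneg _ K) ?_ h1
  filter_upwards [eventually_ge_atTop 3] with K hK
  have hPS : 0 ≤ PS (fun p => f p ≠ h p) 0 K := by
    unfold PS
    exact sum_nonneg fun p _ => by positivity
  have hK3 : (3:ℝ) ≤ K := by exact_mod_cast hK
  have hlog : 1 < Real.log K := by
    have h2 : Real.exp 1 < 3 := Real.exp_one_lt_d9.trans (by norm_num)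
    have h3 : Real.exp 1 < K := by linarith
    have := Real.log_lt_log (Real.exp_pos 1) h3
    rwa [Real.log_exp] at this
  have hll : 0 < Real.log (Real.log K) := Real.log_pos hlog
  have htot : Real.log (Real.log K) ≤ tot wll K := by
    refine le_trans ?_ (loglog_le_tot (K := K) (by omega))
    apply Real.log_le_log (by linarith)
    apply Real.log_le_log (by linarith)
    push_cast
    linarith
  have h2 := (markov c f h ρ K).trans (exchange c f h K)
  rw [WD_eq]
  have h3 : wt wll {N | ρ < topDist c f h N} K ≤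
      (1 + Real.log c) / ρ * PS (fun p => f p ≠ h p) 0 K := by
    rw [div_mul_eq_mul_div, le_div_iff₀ hρ]
    linarith
  have h4 : 0 ≤ (1 + Real.log c) / ρ * PS (fun p => f p ≠ h p) 0 K := by positivity
  calc wt wll {N | ρ < topDist c f h N} K / tot wll K ≤
        ((1 + Real.log c) / ρ * PS (fun p => f p ≠ h p) 0 K) / tot wll K :=
        div_le_div_of_nonneg_right h3 (by linarith)
    _ ≤ ((1 + Real.log c) / ρ * PS (fun p => f p ≠ h p) 0 K) / Real.log (Real.log K) :=
        div_le_div_of_nonneg_left h4 hll htot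
    _ = _ := by ring

end Pool.Agent.Lib.P4a7640T
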