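import Mathlib
import Pool.Agent.Lib.P4a7640T.Dens
import Pool.Agent.Lib.P4a7640D.IsoFast

/-!
# A criterion for closeness at all large scales
-/

open Finset Filter Topology
open Pool.Agent.Lib.P4a7640
open Pool.Agent.Lib.P4a7640D

namespace Pool.Agent.Lib.P4a7640T

theorem close_of_sq {w : ℕ → ℝ} (hw : ∀ n, 0 ≤ w n) (hW : Tendsto (tot w) atTop atTop)
    (f h : ℕ → ℤˣ)
    (H : Tendsto (fun x : ℕ => PS (fun p => f p ≠ h p) x (x ^ 2)) atTop (𝓝 0)) :
    Close w f h := by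
  intro c ρ hρ
  apply WD_tendsto_zero_of_eventually hw hW
  have h1 := IsoFastAux.tendsto_top H c
  filter_upwards [h1.eventually_le_const hρ] with N hN
  show ¬ (ρ < topDist c f h N)
  rw [not_lt]
  have hN' : ∑ p ∈ (Icc 1 N).filter (fun p => p.Prime ∧ N < p ^ (2 ^ c) ∧ f p ≠ h p),
      (1:ℝ) / p ≤ ρ := by
    refine le_trans (le_of_eq ?_) hN
    congr!
  refine le_trans ?_ hN'
  unfold topDist
  refine le_trans (le_of_eq (b := ∑ p ∈ (Icc 1 N).filter
    (fun p => p.Prime ∧ N < p ^ c ∧ f p ≠ h p), (1:ℝ) / p) (by congr!)) ?_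
  apply sum_le_sum_of_subset_of_nonneg
  · intro p hp
    obtain ⟨h2, h3, h4, h5⟩ := Finset.mem_filter.1 hp
    refine Finset.mem_filter.2 ⟨h2, h3, lt_of_lt_of_le h4 ?_, h5⟩
    exact Nat.pow_le_pow_right (Finset.mem_Icc.1 h2).1 Nat.lt_two_pow_self.le
  · intro p _ _
    positivity

end Pool.Agent.Lib.P4a7640T
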