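import Mathlib
import Pool.Agent.Lib.P4a7640T.NearChar

/-!
# Sets of full density
-/

open Finset Filter Topology
open Pool.Agent.Lib.P4a7640
open Pool.Agent.Lib.P4a7640D

namespace Pool.Agent.Lib.P4a7640T

/-- Diagonal sets of full density. -/
theorem diag_full {w : ℕ → ℝ} (hw : ∀ n, 0 ≤ w n) (hW : Tendsto (tot w) atTop atTop)
    (Bd : ℕ → Set ℕ) (hmono : Monotone Bd) (h : ∀ m, Tendsto (WD w (Bd m)) atTop (𝓝 0)) :
    ∃ S : Set ℕ, Tendsto (WD w S) atTop (𝓝 1) ∧ ∀ m, ∀ᶠ N in atTop, N ∈ S → N ∉ Bd m := by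
  classical
  have hex : ∀ j a : ℕ, ∃ K : ℕ, a < K ∧ ∀ K' ≥ K, WD w (Bd j) K' < 1 / ((j:ℝ) + 1) := by
    intro j a
    obtain ⟨K, hK⟩ := eventually_atTop.1
      ((h j).eventually_lt_const (show (0:ℝ) < 1 / ((j:ℝ) + 1) by positivity))
    exact ⟨max K (a + 1), lt_of_lt_of_le (Nat.lt_succ_self a) (le_max_right _ _),
      fun K' hK' => hK K' ((le_max_left _ _).trans hK')⟩
  choose f hf1 hf2 using hex
  obtain ⟨Ks, hKs0, hKs⟩ : ∃ Ks : ℕ → ℕ, Ks 0 = f 0 0 ∧ ∀ j, Ks (j + 1) = f (j + 1) (Ks j) :=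
    ⟨fun n => Nat.rec (f 0 0) (fun j a => f (j + 1) a) n, rfl, fun _ => rfl⟩
  have hlt : ∀ j, Ks j < Ks (j + 1) := fun j => by
    rw [hKs]
    exact hf1 (j + 1) (Ks j)
  have hmonoK : StrictMono Ks := strictMono_nat_of_lt_succ hlt
  have hsmall : ∀ j, ∀ K ≥ Ks j, WD w (Bd j) K < 1 / ((j:ℝ) + 1) := by
    intro j K hK
    cases j with
    | zero =>
      rw [hKs0] at hK
      exact hf2 0 0 K hK
    | succ j =>
      rw [hKs] at hK
      exact hf2 (j + 1) (Ks j) K hK
  set S : Set ℕ := {N | ∀ j, Ks j < N → N ≤ Ks (j + 1) → N ∉ Bd j} with hS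
  have hfind : ∀ N, Ks 0 < N → ∃ j, Ks j < N ∧ N ≤ Ks (j + 1) := by
    intro N hN
    have hex : ∃ j, N ≤ Ks j := ⟨N, hmonoK.id_le N⟩
    have h1 := Nat.find_spec hex
    have h0 : Nat.find hex ≠ 0 := by
      intro h0
      rw [h0] at h1
      omega
    obtain ⟨j, hj⟩ := Nat.exists_eq_succ_of_ne_zero h0
    refine ⟨j, ?_, ?_⟩
    · have := Nat.find_min hex (m := j) (by omega)
      omega
    · rw [hj] at h1
      exact h1
  refine ⟨S, ?_, ?_⟩
  · -- the complement has density zero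
    have hcompl : Tendsto (WD w Sᶜ) atTop (𝓝 0) := by
      rw [Metric.tendsto_atTop]
      intro ε hε
      obtain ⟨i, hi⟩ := exists_nat_one_div_lt (show 0 < ε / 2 by positivity)
      have h1 : ∀ᶠ K in atTop, tot w (Ks 0) / tot w K < ε / 2 :=
        (hW.const_div_atTop (tot w (Ks 0))).eventually_lt_const (by positivity)
      obtain ⟨K₀, hK₀⟩ := eventually_atTop.1 h1
      refine ⟨max K₀ (Ks i + 1), fun K hK => ?_⟩
      have hKK := hK₀ K ((le_max_left _ _).trans hK)
      have hKi : Ks i < K := lt_of_lt_of_le (Nat.lt_succ_self _) ((le_max_right _ _).trans hK)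
      rw [Real.dist_eq, sub_zero, abs_of_nonneg (WD_nonneg hw _ K)]
      obtain ⟨j, hj1, hj2⟩ := hfind K (lt_of_le_of_lt (hmonoK.monotone (Nat.zero_le i)) hKi)
      have hij : i ≤ j := by
        by_contra hcon
        have : j + 1 ≤ i := by omega
        have := hmonoK.monotone this
        omega
      have h2 : WD w Sᶜ K ≤ tot w (Ks 0) / tot w K + WD w (Bd j) K := by
        rw [WD_eq, WD_eq, ← add_div]
        apply div_le_div_of_nonneg_right _ (tot_nonneg hw K)
        apply wt_le_add hw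
        intro N hN1 hN2 hN3
        have hN3' : ∃ j', Ks j' < N ∧ N ≤ Ks (j' + 1) ∧ N ∈ Bd j' := by
          by_contra hcon
          push Not at hcon
          exact hN3 fun j' a b c => hcon j' a b c
        obtain ⟨j', a, b, c⟩ := hN3'
        refine hmono ?_ c
        by_contra hcon
        have h3 : j + 1 ≤ j' := by omega
        have h4 := hmonoK.monotone h3
        omega
      have h3 := hsmall j K hj1.le
      have h4 : 1 / ((j:ℝ) + 1) ≤ 1 / ((i:ℝ) + 1) := by
        apply one_div_le_one_div_of_le (by positivity)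
        have : (i:ℝ) ≤ j := by exact_mod_cast hij
        linarith
      linarith
    have h1 : ∀ᶠ K in atTop, 1 - WD w Sᶜ K = WD w S K := by
      filter_upwards [hW.eventually_ge_atTop 1] with K hK
      have htot : 0 < tot w K := lt_of_lt_of_le one_pos hK
      rw [WD_eq, WD_eq, ← wt_add_compl w S K]
      have h5 : wt w S K + wt w Sᶜ K ≠ 0 := by
        rw [wt_add_compl]
        exact htot.ne'
      field_simp
      ring
    have h2 : Tendsto (fun K => 1 - WD w Sᶜ K) atTop (𝓝 1) := by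
      simpa using hcompl.const_sub 1
    exact h2.congr' h1
  · intro m
    filter_upwards [eventually_gt_atTop (Ks m)] with N hN hS'
    obtain ⟨j, hj1, hj2⟩ := hfind N (lt_of_le_of_lt (hmonoK.monotone (Nat.zero_le m)) hN)
    have h3 := hS' j hj1 hj2
    have h4 : m ≤ j := by
      by_contra hcon
      have h5 : j + 1 ≤ m := by omega
      have := hmonoK.monotone h5
      omega
    exact fun h5 => h3 (hmono h4 h5)

theorem Bds_mono (f : ℕ → ℤˣ) : Monotone fun m => Bds m f := by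
  intro m m' hmm N hN
  obtain ⟨H, hH, hne, hle⟩ := hN
  refine ⟨H, ?_, hne, le_trans ?_ hle⟩
  · rw [Finset.mem_powerset] at hH ⊢
    exact hH.trans (Finset.range_mono (by omega))
  · apply one_div_le_one_div_of_le (by positivity)
    have : (m:ℝ) ≤ m' := by exact_mod_cast hmm
    linarith

theorem vanish_of_Bds {f : ℕ → ℤˣ} {S : Set ℕ} (hev : ∀ m, ∀ᶠ N in atTop, N ∈ S → N ∉ Bds m f) :
    VanishL (atTop ⊓ 𝓟 S) f := by
  intro H hne
  rw [Metric.tendsto_nhds]
  intro ε hε
  obtain ⟨j, hj⟩ := exists_nat_one_div_lt hε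
  set m := max j (H.sup id) with hm
  have hHm : H ∈ (range (m + 1)).powerset := by
    rw [Finset.mem_powerset]
    intro h hh
    rw [Finset.mem_range, Nat.lt_succ_iff]
    exact (Finset.le_sup (f := id) hh).trans (le_max_right _ _)
  have hle : 1 / ((m:ℝ) + 1) < ε := by
    refine lt_of_le_of_lt ?_ hj
    apply one_div_le_one_div_of_le (by positivity)
    have : (j:ℝ) ≤ m := by exact_mod_cast le_max_left _ _
    linarith
  rw [eventually_inf_principal]
  filter_upwards [hev m] with N hN hNS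
  have h1 := hN hNS
  rw [dist_zero_right, Real.norm_eq_abs]
  by_contra hcon
  rw [not_lt] at hcon
  exact h1 ⟨H, hHm, hne, hle.le.trans hcon⟩

/-- sets of density one are unbounded -/
theorem neBot_full {w : ℕ → ℝ} (hw : ∀ n, 0 ≤ w n) (hW : Tendsto (tot w) atTop atTop)
    {S : Set ℕ} (h : Tendsto (WD w S) atTop (𝓝 1)) : (atTop ⊓ 𝓟 S : Filter ℕ).NeBot := by
  apply neBotW hw hW
  intro ε hε
  exact (h.eventually_const_le (by linarith)).frequently

theorem near_char {w : ℕ → ℝ} (hw : ∀ n, 0 ≤ w n) (hW : Tendsto (tot w) atTop atTop)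
    {f g : ℕ → ℤˣ} (hf : MultS f) {q : ℕ} (hq : 0 < q)
    (χ : DirichletCharacter ℂ q) (hg : ∀ p : ℕ, p.Prime → ¬ p ∣ q → sgC (g p) = χ (p : ZMod q))
    (hfar : Tendsto (fun N => PS (fun p => f p ≠ g p) 0 N) atTop atTop)
    (hclose : Close w f g) :
    ∃ S : Set ℕ, Tendsto (WD w S) atTop (𝓝 1) ∧ VanishL (atTop ⊓ 𝓟 S) f := by
  obtain ⟨S, hS, hev⟩ := diag_full hw hW (fun m => Bds m f) (Bds_mono f)
    (near_char_bad hw hW hf hq χ hg hfar hclose)
  exact ⟨S, hS, vanish_of_Bds hev⟩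

end Pool.Agent.Lib.P4a7640T
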