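import Mathlib
import Pool.Agent.Lib.P4a7640T.Dens
import Pool.Agent.Lib.P4a7640D.BlockMass

/-!
# The families `Osc` are tame

Module P4a7640T.OscTame.

Proof.  Put `J = V * (c + 1)` (any bound for the number of jumps) and `τ = ρ / (4 * (J + 1))`.

(0) Triangle inequality: `topDist c f f' N ≤ topDist c f h N + topDist c h h' N + topDist c h' f' N`
(the set `f p ≠ f' p` is contained in the union of the other three).

(1) Let `b := c` (so `c ≤ 2 ^ c`, `Nat.lt_two_pow_self`) and let `x₀ = x₀(N)` be `Nat.sqrt` iterated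
`c` times on `N`; then `x₀ ^ (2 ^ c) ≤ N < (x₀ + 1) ^ (2 ^ c)`.  (Alternatively: take for `x₀` the largest
natural number with `x₀ ^ (2 ^ c) ≤ N`, `Nat.findGreatest` / `Nat.nthRoot`.)  So all primes `p` with
`N < p ^ c` satisfy `x₀ < p` (as `x₀ ^ c ≤ N`), and for `x₀ ≥ 2`: `N < (x₀+1)^(2^c) ≤ (x₀^2)^(2^c) =
x₀ ^ (2 ^ (c + 1))`, hence, iterating `k (x ^ 2) ≤ k x + V` and using that `k` is monotone,
`k N ≤ k x₀ + V * (c + 1)`.

(2) Cells: for `p > x₀` put `cell p = ⌊(∑ q ∈ primes, x₀ < q < p, 1/q) / τ⌋₊`.  It is monotone in `p`.  By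
`P4a7640D.top_mass` (applied with `c + 1`) the sum over all primes `x₀ < q ≤ N` is at most `C * (c + 5)`,
so `cell p < L := ⌊C * (c + 5) / τ⌋₊ + 1` for `p ≤ N`, and `L` does not depend on `N`.  The sum of `1/p`
over the primes of one cell is at most `τ + 1/p_max ≤ 2 τ` as soon as `1/x₀ ≤ τ` (true for `N` large):
all primes of the cell but the last one have total sum at most `τ`.

(3) To `f ∈ Osc` with `k` attach the pattern `π_f : Fin L → Fin 3` (or `range L → ...`): `π_f i = 0` if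
the function `k` is not constant on the primes of cell `i` in `(x₀, N]`, and otherwise `1` or `2`
according to the parity of this constant value (`1` for empty cells).  The number of `i` with
`π_f i = 0` is at most `k N - k x₀ ≤ J`, because `k` is monotone: choose in each such cell primes
`p_i < q_i` with `k p_i < k q_i`; these intervals are disjoint and ordered.  (One convenient way: the
cells `i` with `π_f i = 0` inject into `(k x₀, k N]` by `i ↦ k q_i`, `q_i` the largest prime of the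
cell: for `i < i'` we have `k q_i ≤ k p_{i'} < k q_{i'}`.)

(4) If `h = g (-1)^k`, `h' = g (-1)^k'` have the same pattern then they agree at all primes of cells with
`π ≠ 0`, so `topDist c h h' N ≤ J * (2 τ) ≤ ρ / 2`.

(5) Take `k₀ := 3 ^ L + 1` in the definition of `Tame`.  For `t` with `t.card = k₀` choose the function
`k` for every member.  By pigeonhole (`Finset.exists_ne_map_eq_of_card_lt_of_maps_to`) two members have
the same pattern at scale `N`, so the set in the definition of `Tame` is contained, for `N` large, in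
`{N | ∃ f ∈ t, ρ / 4 < topDist c f (h_f) N}`, whose `w`-density tends to `0` by `Close`
(`WD_tendsto_zero`, `WD_iUnion_tendsto`).
-/

open Finset Filter Topology
open Pool.Agent.Lib.P4a7640
open Pool.Agent.Lib.P4a7640D

namespace Pool.Agent.Lib.P4a7640T

namespace OscTameAux

/-- the primes `N^(1/c) < p ≤ N` -/
def DD (c N : ℕ) : Finset ℕ := (Icc 1 N).filter (fun p => p.Prime ∧ N < p ^ c)

lemma mem_DD {c N p : ℕ} : p ∈ DD c N ↔ (1 ≤ p ∧ p ≤ N) ∧ p.Prime ∧ N < p ^ c := by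
  unfold DD
  rw [mem_filter, mem_Icc]

/-- cumulative mass -/
noncomputable def mm (c N p : ℕ) : ℝ := ∑ q ∈ (DD c N).filter (fun q => q < p), (1:ℝ) / q

/-- the cell of a prime -/
noncomputable def cell (τ : ℝ) (c N p : ℕ) : ℕ := ⌊mm c N p / τ⌋₊

lemma mm_nonneg (c N p : ℕ) : 0 ≤ mm c N p := sum_nonneg fun q _ => by positivity

lemma mm_mono (c N : ℕ) {p q : ℕ} (h : p ≤ q) : mm c N p ≤ mm c N q := by
  unfold mm
  apply sum_le_sum_of_subset_of_nonneg
  · intro r hr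
    rw [mem_filter] at hr ⊢
    exact ⟨hr.1, lt_of_lt_of_le hr.2 h⟩
  · intro r _ _
    positivity

lemma cell_mono {τ : ℝ} (hτ : 0 < τ) (c N : ℕ) {p q : ℕ} (h : p ≤ q) :
    cell τ c N p ≤ cell τ c N q :=
  Nat.floor_le_floor (div_le_div_of_nonneg_right (mm_mono c N h) hτ.le)

lemma cell_mass {τ : ℝ} (hτ : 0 < τ) (c N : ℕ) (h1 : ∀ p ∈ DD c N, (1:ℝ) / p ≤ τ) (i : ℕ) :
    ∑ p ∈ (DD c N).filter (fun p => cell τ c N p = i), (1:ℝ) / p ≤ 2 * τ := by
  obtain ⟨S, hS⟩ : ∃ S, S = (DD c N).filter (fun p => cell τ c N p = i) := ⟨_, rfl⟩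
  rw [← hS]
  have hmem : ∀ p ∈ S, p ∈ DD c N ∧ cell τ c N p = i := fun p hp => by
    rw [hS] at hp
    exact mem_filter.1 hp
  rcases S.eq_empty_or_nonempty with h0 | hne
  · rw [h0, sum_empty]
    positivity
  obtain ⟨a, ha⟩ : ∃ a, a = S.min' hne := ⟨_, rfl⟩
  obtain ⟨b, hb⟩ : ∃ b, b = S.max' hne := ⟨_, rfl⟩
  have haS : a ∈ S := ha ▸ S.min'_mem hne
  have hbS : b ∈ S := hb ▸ S.max'_mem hne
  have hsplit : ∑ p ∈ S, (1:ℝ) / p = (1:ℝ) / b + ∑ p ∈ S.erase b, (1:ℝ) / p :=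
    (add_sum_erase S (fun p : ℕ => (1:ℝ) / p) hbS).symm
  have hdisj : Disjoint ((DD c N).filter (fun q => q < a)) (S.erase b) := by
    rw [disjoint_left]
    intro p hp hp2
    have h2 := (mem_filter.1 hp).2
    have h3 : a ≤ p := ha ▸ S.min'_le p (mem_of_mem_erase hp2)
    omega
  have hle : mm c N a + ∑ p ∈ S.erase b, (1:ℝ) / p ≤ mm c N b := by
    unfold mm
    rw [← sum_union hdisj]
    apply sum_le_sum_of_subset_of_nonneg
    · intro p hp
      rcases mem_union.1 hp with h | h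
      · rw [mem_filter] at h ⊢
        have h3 : a ≤ b := ha ▸ S.min'_le b hbS
        exact ⟨h.1, by omega⟩
      · rw [mem_erase] at h
        rw [mem_filter]
        have h3 : p ≤ b := hb ▸ S.le_max' p h.2
        exact ⟨(hmem p h.2).1, lt_of_le_of_ne h3 h.1⟩
    · intro p _ _
      positivity
  have e1 : mm c N b / τ < i + 1 := by
    have := Nat.lt_floor_add_one (mm c N b / τ)
    have e : ⌊mm c N b / τ⌋₊ = i := (hmem b hbS).2
    rwa [e] at this
  have e2 : (i : ℝ) ≤ mm c N a / τ := by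
    have := Nat.floor_le (div_nonneg (mm_nonneg c N a) hτ.le)
    have e : ⌊mm c N a / τ⌋₊ = i := (hmem a haS).2
    rwa [e] at this
  rw [div_lt_iff₀ hτ] at e1
  rw [le_div_iff₀ hτ] at e2
  have e3 := h1 b (hmem b hbS).1
  rw [hsplit]
  linarith

open Classical in
/-- the pattern of a nondecreasing function -/
noncomputable def pat (τ : ℝ) (c N L : ℕ) (k : ℕ → ℕ) (i : Fin L) : Fin 3 :=
  if ∃ p ∈ DD c N, ∃ q ∈ DD c N, cell τ c N p = i ∧ cell τ c N q = i ∧ k p ≠ k q then 0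
  else if ∃ p ∈ DD c N, cell τ c N p = i ∧ Even (k p) then 1 else 2

lemma pat_eq_zero {τ : ℝ} {c N L : ℕ} {k : ℕ → ℕ} {i : Fin L} : pat τ c N L k i = 0 ↔
    ∃ p ∈ DD c N, ∃ q ∈ DD c N, cell τ c N p = i ∧ cell τ c N q = i ∧ k p ≠ k q := by
  unfold pat
  split_ifs with h1 h2
  · exact ⟨fun _ => h1, fun _ => rfl⟩
  · exact ⟨fun h => absurd h (by decide), fun h => absurd h h1⟩
  · exact ⟨fun h => absurd h (by decide), fun h => absurd h h1⟩

lemma pat_parity {τ : ℝ} {c N L : ℕ} {k : ℕ → ℕ} {i : Fin L} (h : pat τ c N L k i ≠ 0) {p : ℕ}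
    (hp : p ∈ DD c N) (hc : cell τ c N p = i) : Even (k p) ↔ pat τ c N L k i = 1 := by
  have h0 : ¬ ∃ p ∈ DD c N, ∃ q ∈ DD c N, cell τ c N p = i ∧ cell τ c N q = i ∧ k p ≠ k q :=
    fun h' => h (pat_eq_zero.2 h')
  push Not at h0
  constructor
  · intro he
    unfold pat
    rw [if_neg (fun h' => h (pat_eq_zero.2 h')), if_pos ⟨p, hp, hc, he⟩]
  · intro h1
    unfold pat at h1
    rw [if_neg (fun h' => h (pat_eq_zero.2 h'))] at h1
    split_ifs at h1 with h2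
    · obtain ⟨q, hq, hcq, heq⟩ := h2
      rw [h0 p hp q hq hc hcq]
      exact heq
    · exact absurd h1 (by decide)

lemma growth {k : ℕ → ℕ} {V : ℕ} (hV : ∀ x, k (x ^ 2) ≤ k x + V) (x j : ℕ) :
    k (x ^ (2 ^ j)) ≤ k x + V * j := by
  induction j with
  | zero => simp
  | succ j ih =>
    have h1 := hV (x ^ (2 ^ j))
    rw [← pow_mul, ← pow_succ] at h1
    rw [Nat.mul_succ]
    omega

lemma card_bad {τ : ℝ} (hτ : 0 < τ) {c N L V : ℕ} {k : ℕ → ℕ} (hk : Monotone k)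
    (hV : ∀ x, k (x ^ 2) ≤ k x + V) :
    ((univ : Finset (Fin L)).filter (fun i => pat τ c N L k i = 0)).card ≤ V * c := by
  classical
  obtain ⟨Z, hZ⟩ : ∃ Z, Z = (univ : Finset (Fin L)).filter (fun i => pat τ c N L k i = 0) :=
    ⟨_, rfl⟩
  rw [← hZ]
  have hex : ∀ i : Fin L, i ∈ Z → ∃ p q : ℕ, p ∈ DD c N ∧ q ∈ DD c N ∧ cell τ c N p = i ∧
      cell τ c N q = i ∧ k p < k q := by
    intro i hi
    rw [hZ, mem_filter] at hi
    obtain ⟨p, hp, q, hq, h1, h2, h3⟩ := pat_eq_zero.1 hi.2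
    rcases lt_or_gt_of_ne h3 with h4 | h4
    · exact ⟨p, q, hp, hq, h1, h2, h4⟩
    · exact ⟨q, p, hq, hp, h2, h1, h4⟩
  rcases (DD c N).eq_empty_or_nonempty with h0 | hne
  · have : Z = ∅ := by
      rw [eq_empty_iff_forall_notMem]
      intro i hi
      obtain ⟨p, _, hp, _⟩ := hex i hi
      rw [h0] at hp
      exact absurd hp (notMem_empty _)
    rw [this, card_empty]
    exact Nat.zero_le _
  obtain ⟨a, ha⟩ : ∃ a, a = (DD c N).min' hne := ⟨_, rfl⟩
  have haD : a ∈ DD c N := ha ▸ (DD c N).min'_mem hne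
  have hmin : ∀ p ∈ DD c N, a ≤ p := fun p hp => ha ▸ (DD c N).min'_le p hp
  have hkN : k N ≤ k a + V * c := by
    obtain ⟨⟨ha1, ha2⟩, ha3, ha4⟩ := mem_DD.1 haD
    have h1 : N ≤ a ^ (2 ^ c) := by
      refine ha4.le.trans (Nat.pow_le_pow_right ha1 Nat.lt_two_pow_self.le)
    exact (hk h1).trans (growth hV a c)
  choose! p q hp hq hcp hcq hkpq using hex
  have hcard : Z.card ≤ (Ioc (k a) (k N)).card := by
    apply card_le_card_of_injOn (fun i => k (q i))
    · intro i hi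
      have hi' : i ∈ Z := hi
      rw [coe_Ioc, Set.mem_Ioc]
      exact ⟨lt_of_le_of_lt (hk (hmin _ (hp i hi'))) (hkpq i hi'),
        hk (mem_DD.1 (hq i hi')).1.2⟩
    · have hlt : ∀ i ∈ Z, ∀ j ∈ Z, i < j → k (q i) < k (q j) := by
        intro i hi j hj hij
        have h1 : q i ≤ p j := by
          by_contra h2
          push Not at h2
          have h3 := cell_mono hτ c N h2.le
          rw [hcp j hj, hcq i hi] at h3
          exact absurd hij (not_lt.2 (Fin.le_def.2 h3))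
        exact lt_of_le_of_lt (hk h1) (hkpq j hj)
      intro i hi j hj hij
      have hi' : i ∈ Z := hi
      have hj' : j ∈ Z := hj
      rcases lt_trichotomy i j with h | h | h
      · exact absurd hij (hlt i hi' j hj' h).ne
      · exact h
      · exact absurd hij (hlt j hj' i hi' h).ne'
  rw [Nat.card_Ioc] at hcard
  omega

lemma neg_one_pow_eq {a b : ℕ} (h : Even a ↔ Even b) : ((-1 : ℤˣ)) ^ a = (-1) ^ b := by
  rcases Nat.even_or_odd a with ha | ha
  · rw [ha.neg_one_pow, (h.1 ha).neg_one_pow]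
  · have hb : Odd b := by
      rw [← Nat.not_even_iff_odd] at ha ⊢
      exact fun h' => ha (h.2 h')
    rw [ha.neg_one_pow, hb.neg_one_pow]

lemma dist_le {τ : ℝ} (hτ : 0 < τ) {c N L V : ℕ} (h1 : ∀ p ∈ DD c N, (1:ℝ) / p ≤ τ)
    (hL : ∀ p ∈ DD c N, cell τ c N p < L) (g : ℕ → ℤˣ) {k k' : ℕ → ℕ} (hk : Monotone k)
    (hV : ∀ x, k (x ^ 2) ≤ k x + V) (he : pat τ c N L k = pat τ c N L k') :
    topDist c (fun n => g n * (-1) ^ k n) (fun n => g n * (-1) ^ k' n) N ≤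
      ((V * c : ℕ) : ℝ) * (2 * τ) := by
  classical
  obtain ⟨Z, hZ⟩ : ∃ Z, Z = (univ : Finset (Fin L)).filter (fun i => pat τ c N L k i = 0) :=
    ⟨_, rfl⟩
  have hcard := card_bad (L := L) (c := c) (N := N) hτ hk hV
  rw [← hZ] at hcard
  unfold topDist
  have hsub : (Icc 1 N).filter (fun p => p.Prime ∧ N < p ^ c ∧
      (fun n => g n * (-1) ^ k n) p ≠ (fun n => g n * (-1) ^ k' n) p) ⊆
      Z.biUnion fun i => (DD c N).filter (fun p => cell τ c N p = i) := by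
    intro p hp
    rw [mem_filter] at hp
    obtain ⟨hp1, hp2, hp3, hp4⟩ := hp
    have hpD : p ∈ DD c N := by
      unfold DD
      rw [mem_filter]
      exact ⟨hp1, hp2, hp3⟩
    rw [mem_biUnion]
    refine ⟨⟨cell τ c N p, hL p hpD⟩, ?_, ?_⟩
    · rw [hZ, mem_filter]
      refine ⟨mem_univ _, ?_⟩
      by_contra hne
      apply hp4
      have e1 := pat_parity hne hpD rfl
      have hne' : pat τ c N L k' ⟨cell τ c N p, hL p hpD⟩ ≠ 0 := by
        rw [← he]
        exact hne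
      have e2 := pat_parity hne' hpD rfl
      rw [← he] at e2
      show g p * (-1) ^ k p = g p * (-1) ^ k' p
      rw [neg_one_pow_eq (e1.trans e2.symm)]
    · rw [mem_filter]
      exact ⟨hpD, rfl⟩
  calc ∑ p ∈ (Icc 1 N).filter (fun p => p.Prime ∧ N < p ^ c ∧
        (fun n => g n * (-1) ^ k n) p ≠ (fun n => g n * (-1) ^ k' n) p), (1:ℝ) / p
      ≤ ∑ p ∈ Z.biUnion fun i => (DD c N).filter (fun p => cell τ c N p = i), (1:ℝ) / p :=
        sum_le_sum_of_subset_of_nonneg hsub fun p _ _ => by positivity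
    _ ≤ ∑ i ∈ Z, ∑ p ∈ (DD c N).filter (fun p => cell τ c N p = i), (1:ℝ) / p :=
        (sum_biUnion fun i _ j _ hij => by
          rw [Function.onFun, disjoint_left]
          intro p hp hp'
          exact hij (Fin.ext ((mem_filter.1 hp).2.symm.trans (mem_filter.1 hp').2))).le
    _ ≤ ∑ _i ∈ Z, 2 * τ := sum_le_sum fun i _ => cell_mass hτ c N h1 i
    _ = (Z.card : ℝ) * (2 * τ) := by rw [sum_const, nsmul_eq_mul]
    _ ≤ ((V * c : ℕ) : ℝ) * (2 * τ) := by
        have : (Z.card : ℝ) ≤ ((V * c : ℕ) : ℝ) := by exact_mod_cast hcard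
        gcongr

lemma det (c V : ℕ) {ρ : ℝ} (hρ : 0 < ρ) : ∃ (L N₁ : ℕ), ∀ N ≥ N₁,
    ∃ π : (ℕ → ℕ) → (Fin L → Fin 3), ∀ (g : ℕ → ℤˣ) (k k' : ℕ → ℕ), Monotone k →
      (∀ x, k (x ^ 2) ≤ k x + V) → π k = π k' →
      topDist c (fun n => g n * (-1) ^ k n) (fun n => g n * (-1) ^ k' n) N ≤ ρ / 2 := by
  obtain ⟨C, hC, htop⟩ := top_mass
  obtain ⟨τ, hτdef⟩ : ∃ τ : ℝ, τ = ρ / (4 * (((V * c : ℕ) : ℝ) + 1)) := ⟨_, rfl⟩
  have hτ : 0 < τ := by rw [hτdef]; positivity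
  refine ⟨⌊C * (c + 4) / τ⌋₊ + 1, ⌈1 / τ⌉₊ ^ c, fun N hN => ?_⟩
  refine ⟨pat τ c N (⌊C * (c + 4) / τ⌋₊ + 1), fun g k k' hk hV he => ?_⟩
  have h1 : ∀ p ∈ DD c N, (1:ℝ) / p ≤ τ := by
    intro p hp
    obtain ⟨⟨hp1, _⟩, _, hp4⟩ := mem_DD.1 hp
    have h2 : ⌈1 / τ⌉₊ ≤ p := by
      by_contra h3
      push Not at h3
      have h4 : p ^ c ≤ ⌈1 / τ⌉₊ ^ c := Nat.pow_le_pow_left h3.le c
      omega
    have h3 : 1 / τ ≤ p := (Nat.le_ceil _).trans (by exact_mod_cast h2)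
    have hp0 : (0:ℝ) < p := by exact_mod_cast hp1
    rw [div_le_iff₀ hτ] at h3
    rw [div_le_iff₀ hp0]
    linarith
  have hL : ∀ p ∈ DD c N, cell τ c N p < ⌊C * (c + 4) / τ⌋₊ + 1 := by
    intro p _
    rw [Nat.lt_succ_iff]
    apply Nat.floor_le_floor
    apply div_le_div_of_nonneg_right _ hτ.le
    unfold mm
    apply htop c N
    intro q hq
    obtain ⟨⟨hq1, hq2⟩, hq3, hq4⟩ := mem_DD.1 (mem_filter.1 hq).1
    refine ⟨hq3, hq2.trans (Nat.le_self_pow (by norm_num) N), ?_⟩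
    exact hq4.trans_le (Nat.pow_le_pow_right hq1 Nat.lt_two_pow_self.le)
  refine (dist_le hτ h1 hL g hk hV he).trans ?_
  rw [hτdef]
  have hJ : (0:ℝ) ≤ ((V * c : ℕ) : ℝ) := Nat.cast_nonneg _
  obtain ⟨J, hJdef⟩ : ∃ J : ℝ, J = ((V * c : ℕ) : ℝ) := ⟨_, rfl⟩
  rw [← hJdef] at hJ ⊢
  rw [show J * (2 * (ρ / (4 * (J + 1)))) = (J / (J + 1)) * (ρ / 2) by field_simp; ring]
  have : J / (J + 1) ≤ 1 := by
    rw [div_le_one (by linarith)]
    linarith
  nlinarith

lemma tri (c : ℕ) (f g h : ℕ → ℤˣ) (N : ℕ) :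
    topDist c f h N ≤ topDist c f g N + topDist c g h N := by
  classical
  unfold topDist
  have hsub : (Icc 1 N).filter (fun p => p.Prime ∧ N < p ^ c ∧ f p ≠ h p) ⊆
      (Icc 1 N).filter (fun p => p.Prime ∧ N < p ^ c ∧ f p ≠ g p) ∪
        (Icc 1 N).filter (fun p => p.Prime ∧ N < p ^ c ∧ g p ≠ h p) := by
    intro p hp
    rw [mem_filter] at hp
    rw [mem_union, mem_filter, mem_filter]
    by_cases h1 : f p = g p
    · exact Or.inr ⟨hp.1, hp.2.1, hp.2.2.1, fun h2 => hp.2.2.2 (h1.trans h2)⟩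
    · exact Or.inl ⟨hp.1, hp.2.1, hp.2.2.1, h1⟩
  refine (sum_le_sum_of_subset_of_nonneg hsub fun p _ _ => by positivity).trans ?_
  rw [← sum_union_inter]
  have : (0:ℝ) ≤ ∑ p ∈ (Icc 1 N).filter (fun p => p.Prime ∧ N < p ^ c ∧ f p ≠ g p) ∩
      (Icc 1 N).filter (fun p => p.Prime ∧ N < p ^ c ∧ g p ≠ h p), (1:ℝ) / p :=
    sum_nonneg fun p _ => by positivity
  linarith

lemma comm (c : ℕ) (f g : ℕ → ℤˣ) (N : ℕ) : topDist c f g N = topDist c g f N := by
  classical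
  unfold topDist
  refine sum_congr ?_ fun _ _ => rfl
  ext p
  simp only [mem_filter, ne_comm]

end OscTameAux

open OscTameAux in
theorem osc_tame {w : ℕ → ℝ} (hw : ∀ n, 0 ≤ w n) (hW : Tendsto (tot w) atTop atTop)
    (g : ℕ → ℤˣ) (V : ℕ) : Tame w (Osc w g V) := by
  classical
  intro c ρ hρ
  obtain ⟨L, N₁, hdet⟩ := det c V hρ
  refine ⟨Fintype.card (Fin L → Fin 3) + 1, fun t ht htc => ?_⟩
  have hex : ∀ f : ℕ → ℤˣ, f ∈ t → ∃ k : ℕ → ℕ, Monotone k ∧ (∀ x, k (x ^ 2) ≤ k x + V) ∧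
      Close w f (fun n => g n * (-1) ^ k n) := fun f hf => (ht f hf).2
  choose! κ hκ1 hκ2 hκ3 using hex
  have hB : Tendsto (WD w {N | ∃ f ∈ t, N ∈ {N | ρ / 4 <
      topDist c f (fun n => g n * (-1) ^ κ f n) N}}) atTop (𝓝 0) :=
    WD_iUnion_tendsto hw t _ fun f hf => hκ3 f hf c (ρ / 4) (by positivity)
  refine WD_tendsto_zero hw hW ?_ hB
  filter_upwards [eventually_ge_atTop N₁] with N hN hbad
  obtain ⟨π, hπ⟩ := hdet N hN
  have hpig : ∃ f ∈ t, ∃ f' ∈ t, f ≠ f' ∧ π (κ f) = π (κ f') := by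
    apply exists_ne_map_eq_of_card_lt_of_maps_to (t := (univ : Finset (Fin L → Fin 3)))
    · rw [htc, card_univ]
      exact Nat.lt_succ_self _
    · intro f _
      exact mem_univ _
  obtain ⟨f, hf, f', hf', hne, hpe⟩ := hpig
  have h1 := hbad f hf f' hf' hne
  have h2 := hπ g (κ f) (κ f') (hκ1 f hf) (hκ2 f hf) hpe
  have h3 := tri c f (fun n => g n * (-1) ^ κ f n) f' N
  have h4 := tri c (fun n => g n * (-1) ^ κ f n) (fun n => g n * (-1) ^ κ f' n) f' N
  rw [comm c (fun n => g n * (-1) ^ κ f' n) f' N] at h4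
  by_contra hcon
  have h5 : ∀ f₀ ∈ t, topDist c f₀ (fun n => g n * (-1) ^ κ f₀ n) N ≤ ρ / 4 := by
    intro f₀ hf₀
    by_contra h6
    push Not at h6
    exact hcon ⟨f₀, hf₀, h6⟩
  have h6 := h5 f hf
  have h7 := h5 f' hf'
  linarith

end Pool.Agent.Lib.P4a7640T
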