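import Mathlib
import Pool.Agent.Lib.P4a7640T.Full

/-!
# The sharp Bessel inequality for pairwise close functions at infinite distance
-/

open Finset Filter Topology
open Pool.Agent.Lib.P4a7640
open Pool.Agent.Lib.P4a7640D

namespace Pool.Agent.Lib.P4a7640T

lemma topDist_mul_one (c : ℕ) (f f' : ℕ → ℤˣ) (N : ℕ) :
    topDist c (fun n => f n * f' n) (fun _ => 1) N = topDist c f f' N := by
  classical
  unfold topDist
  refine sum_congr ?_ fun _ _ => rfl
  ext p
  simp only [mem_filter]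
  have h : (f p * f' p ≠ 1) ↔ (f p ≠ f' p) := by
    rcases Int.units_eq_one_or (f p) with h1 | h1 <;>
      rcases Int.units_eq_one_or (f' p) with h2 | h2 <;> simp [h1, h2]
  rw [h]

lemma close_mul_one {w : ℕ → ℝ} {f f' : ℕ → ℤˣ} (h : Close w f f') :
    Close w (fun n => f n * f' n) (fun _ => 1) := by
  intro c ρ hρ
  have h1 := h c ρ hρ
  simp only [topDist_mul_one]
  exact h1

lemma far_mul_one {f f' : ℕ → ℤˣ} (h : Tendsto (fun N => PS (fun p => f p ≠ f' p) 0 N) atTop atTop) :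
    Tendsto (fun N => PS (fun p => f p * f' p ≠ 1) 0 N) atTop atTop := by
  have h1 : (fun p => f p * f' p ≠ 1) = fun p => f p ≠ f' p := by
    funext p
    apply propext
    rcases Int.units_eq_one_or (f p) with h1 | h1 <;>
      rcases Int.units_eq_one_or (f' p) with h2 | h2 <;> simp [h1, h2]
  rw [h1]
  exact h

/-- Two close functions at infinite distance have asymptotically orthogonal products. -/
theorem orth {w : ℕ → ℝ} (hw : ∀ n, 0 ≤ w n) (hW : Tendsto (tot w) atTop atTop)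
    {f f' : ℕ → ℤˣ} (hf : MultS f) (hf' : MultS f') (hclose : Close w f f')
    (hfar : Tendsto (fun N => PS (fun p => f p ≠ f' p) 0 N) atTop atTop)
    (H : Finset ℕ) (hne : H.Nonempty) (ε : ℝ) (hε : 0 < ε) :
    Tendsto (WD w {N | ε ≤ |LA (fun n => prodSeq f H n * prodSeq f' H n) N|}) atTop (𝓝 0) := by
  have hm : MultS fun n => f n * f' n := by
    intro a b ha hb hab
    show f (a * b) * f' (a * b) = f a * f' a * (f b * f' b)
    rw [hf a b ha hb hab, hf' a b ha hb hab]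
    exact mul_mul_mul_comm _ _ _ _
  obtain ⟨c, N₀, ρ, hρ, hcore⟩ := near_char_core (g := fun _ => 1) hm one_pos
    (1 : DirichletCharacter ℂ 1) (fun p _ _ => by
      rw [MulChar.one_apply (isUnit_of_subsingleton _)]
      simp [sgC]) (far_mul_one hfar) H hne ε hε
  refine WD_tendsto_zero hw hW ?_ (close_mul_one hclose c ρ hρ)
  filter_upwards [eventually_ge_atTop N₀] with N hN hbad
  by_contra hcon
  have h1 := hcore N hN (not_lt.1 hcon)
  have h2 : prodSeq (fun n => f n * f' n) H = fun n => prodSeq f H n * prodSeq f' H n := by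
    funext n
    exact prodSeq_mul_fun f f' H n
  rw [h2] at h1
  exact absurd h1 (not_lt.2 hbad)

/-- Bessel's inequality at one scale. -/
lemma bessel_scale {ι : Type*} (s : Finset ι) (F : ι → ℕ → ℝ) (hF : ∀ i ∈ s, ∀ n, |F i n| = 1)
    (N : ℕ) (L τ : ℝ) (hL1 : LA (fun _ => 1) N ≤ L) (hL0 : 1 ≤ L) (hτ : 0 ≤ τ)
    (h2 : ∀ i ∈ s, ∀ j ∈ s, i ≠ j → |LA (fun n => F i n * F j n) N| ≤ τ) :
    ∑ i ∈ s, LA (F i) N ^ 2 ≤ L ^ 2 + L * s.card ^ 2 * τ * L ^ 2 := by
  classical
  set a : ι → ℝ := fun i => LA (F i) N with ha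
  set S : ℝ := ∑ i ∈ s, a i ^ 2 with hS
  have hLone : 0 ≤ LA (fun _ => (1:ℝ)) N := by
    have := abs_LA_le (fun _ => (1:ℝ)) N
    simp only [abs_one] at this
    exact (abs_nonneg _).trans this
  have ha1 : ∀ i ∈ s, |a i| ≤ L := by
    intro i hi
    refine (abs_LA_le (F i) N).trans ?_
    refine le_trans (le_of_eq ?_) hL1
    congr 1
    funext n
    exact hF i hi n
  have hS0 : 0 ≤ S := sum_nonneg fun i _ => sq_nonneg _
  set G : ℕ → ℝ := fun n => ∑ i ∈ s, a i * F i n with hG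
  have e1 : LA G N = S := by
    have : G = fun n => ∑ i ∈ s, a i * F i n := rfl
    rw [this, LA_sum]
    refine sum_congr rfl fun i _ => ?_
    rw [LA_const_mul, sq]
  have e2 : LA (fun n => G n ^ 2) N = ∑ i ∈ s, ∑ j ∈ s, a i * a j *
      LA (fun n => F i n * F j n) N := by
    have h1 : (fun n => G n ^ 2) = fun n => ∑ i ∈ s, ∑ j ∈ s, a i * a j * (F i n * F j n) := by
      funext n
      simp only [hG]
      rw [sq, sum_mul_sum]
      refine sum_congr rfl fun i _ => sum_congr rfl fun j _ => ?_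
      ring
    rw [h1, LA_sum]
    refine sum_congr rfl fun i _ => ?_
    rw [LA_sum]
    refine sum_congr rfl fun j _ => ?_
    exact LA_const_mul _ _ _
  have e3 : LA (fun n => G n ^ 2) N ≤ S * L + s.card ^ 2 * τ * L ^ 2 := by
    rw [e2]
    have h1 : ∀ i ∈ s, ∀ j ∈ s, a i * a j * LA (fun n => F i n * F j n) N ≤
        (if i = j then a i ^ 2 * L else 0) + L ^ 2 * τ := by
      intro i hi j hj
      by_cases hij : i = j
      · rw [if_pos hij, ← hij]
        have h3 : (fun n => F i n * F i n) = fun _ => (1:ℝ) := by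
          funext n
          have := hF i hi n
          rw [← sq, ← sq_abs, this, one_pow]
        rw [h3, ← sq]
        have h4 : a i ^ 2 * LA (fun _ => 1) N ≤ a i ^ 2 * L :=
          mul_le_mul_of_nonneg_left hL1 (sq_nonneg _)
        have h5 : 0 ≤ L ^ 2 * τ := by positivity
        linarith
      · rw [if_neg hij, zero_add]
        refine (le_abs_self _).trans ?_
        rw [abs_mul, abs_mul]
        have h3 := h2 i hi j hj hij
        have h4 : |a i| * |a j| ≤ L ^ 2 := by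
          rw [sq]
          exact mul_le_mul (ha1 i hi) (ha1 j hj) (abs_nonneg _) (by linarith)
        exact mul_le_mul h4 h3 (abs_nonneg _) (by positivity)
    refine (sum_le_sum fun i hi => sum_le_sum fun j hj => h1 i hi j hj).trans (le_of_eq ?_)
    simp only [sum_add_distrib, sum_const, nsmul_eq_mul]
    have h3 : ∑ i ∈ s, ∑ j ∈ s, (if i = j then a i ^ 2 * L else 0) = S * L := by
      rw [hS, sum_mul]
      refine sum_congr rfl fun i hi => ?_
      rw [sum_ite_eq, if_pos hi]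
    rw [h3]
    ring
  -- Cauchy-Schwarz: `(LA G)^2 ≤ LA 1 * LA (G^2)`
  have e4 : LA G N ^ 2 ≤ LA (fun _ => 1) N * LA (fun n => G n ^ 2) N := by
    unfold LA
    rw [div_pow, div_mul_div_comm, ← sq]
    apply div_le_div_of_nonneg_right _ (sq_nonneg _)
    have h1 := Finset.sum_mul_sq_le_sq_mul_sq (Icc 1 N) (fun n : ℕ => Real.sqrt (1 / n))
      (fun n : ℕ => Real.sqrt (1 / n) * G n)
    have h2 : ∀ n ∈ Icc 1 N, Real.sqrt (1 / (n:ℝ)) * (Real.sqrt (1 / (n:ℝ)) * G n) = G n / n := by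
      intro n _
      rw [← mul_assoc, Real.mul_self_sqrt (by positivity)]
      ring
    have h3 : ∀ n ∈ Icc 1 N, Real.sqrt (1 / (n:ℝ)) ^ 2 = 1 / n := by
      intro n _
      rw [Real.sq_sqrt (by positivity)]
    have h4 : ∀ n ∈ Icc 1 N, (Real.sqrt (1 / (n:ℝ)) * G n) ^ 2 = G n ^ 2 / n := by
      intro n _
      rw [mul_pow, Real.sq_sqrt (by positivity)]
      ring
    rw [sum_congr rfl h2, sum_congr rfl h3, sum_congr rfl h4] at h1
    exact h1
  rw [e1] at e4
  have e5 : S ^ 2 ≤ L * (S * L + s.card ^ 2 * τ * L ^ 2) := by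
    refine e4.trans ?_
    have h1 : 0 ≤ LA (fun n => G n ^ 2) N := by
      unfold LA
      exact div_nonneg (sum_nonneg fun n _ => by positivity) (Real.log_natCast_nonneg N)
    exact mul_le_mul hL1 e3 h1 (by linarith)
  -- `S^2 ≤ L^2 S + B` with `B = L * card^2 τ L^2` gives `S ≤ L^2 + B` as `L ≥ 1`
  set B : ℝ := L * s.card ^ 2 * τ * L ^ 2 with hB
  have hB0 : 0 ≤ B := by positivity
  have e6 : S ^ 2 ≤ L ^ 2 * S + B := by
    calc S ^ 2 ≤ L * (S * L + s.card ^ 2 * τ * L ^ 2) := e5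
      _ = L ^ 2 * S + B := by rw [hB]; ring
  by_contra hcon
  rw [not_le] at hcon
  have h1 : 1 ≤ L ^ 2 := by nlinarith
  have h2 : 1 ≤ S := by linarith
  nlinarith

/-- **Sharp Bessel inequality.** -/
theorem sharp {w : ℕ → ℝ} (hw : ∀ n, 0 ≤ w n) (hW : Tendsto (tot w) atTop atTop)
    {ι : Type*} (s : Finset ι) (f : ι → ℕ → ℤˣ) (hf : ∀ i ∈ s, MultS (f i))
    (hclose : ∀ i ∈ s, ∀ j ∈ s, Close w (f i) (f j))
    (hfar : ∀ i ∈ s, ∀ j ∈ s, i ≠ j →
      Tendsto (fun N => PS (fun p => f i p ≠ f j p) 0 N) atTop atTop)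
    (H : Finset ℕ) (hne : H.Nonempty) (ε : ℝ) (hε : 0 < ε) :
    Tendsto (WD w {N | 1 + ε < ∑ i ∈ s, LA (prodSeq (f i) H) N ^ 2}) atTop (𝓝 0) := by
  classical
  -- choice of the parameters
  obtain ⟨L, hL1, hL2⟩ : ∃ L : ℝ, 1 < L ∧ L ^ 2 + L ^ 3 * (L - 1) ≤ 1 + ε := by
    have h1 : Tendsto (fun L : ℝ => L ^ 2 + L ^ 3 * (L - 1)) (𝓝[>] 1) (𝓝 1) := by
      have : ContinuousAt (fun L : ℝ => L ^ 2 + L ^ 3 * (L - 1)) 1 := by fun_prop
      have h2 := this.tendsto
      norm_num at h2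
      exact h2.mono_left nhdsWithin_le_nhds
    have h2 : ∀ᶠ L : ℝ in 𝓝[>] 1, L ^ 2 + L ^ 3 * (L - 1) ≤ 1 + ε :=
      h1.eventually_le_const (by linarith)
    obtain ⟨L, h3, h4⟩ := (h2.and self_mem_nhdsWithin).exists
    exact ⟨L, h4, h3⟩
  obtain ⟨τ, hτ0, hτ⟩ : ∃ τ : ℝ, 0 < τ ∧ (s.card : ℝ) ^ 2 * τ ≤ L - 1 := by
    refine ⟨(L - 1) / ((s.card : ℝ) ^ 2 + 1), by
      apply div_pos (by linarith); positivity, ?_⟩
    rw [mul_div_assoc', div_le_iff₀ (by positivity)]
    nlinarith [sq_nonneg (s.card : ℝ)]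
  have hLA : ∀ᶠ N : ℕ in atTop, LA (fun _ => 1) N ≤ L := by
    have h1 : Tendsto (fun N : ℕ => 1 + 1 / Real.log N) atTop (𝓝 1) := by
      simpa using (tendsto_logN.const_div_atTop 1).const_add 1
    filter_upwards [h1.eventually_le_const hL1, eventually_ge_atTop 3] with N h2 h3
    refine le_trans ?_ h2
    unfold LA
    have hlog : 0 < Real.log N := Real.log_pos (by
      have : (3:ℝ) ≤ N := by exact_mod_cast h3
      linarith)
    rw [div_le_iff₀ hlog]
    have h4 := UpDensAux.le_log N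
    have h5 : (1 + 1 / Real.log N) * Real.log N = 1 + Real.log N := by
      field_simp
      ring
    rw [h5]
    exact h4
  have hpairs := WD_iUnion_tendsto hw ((s ×ˢ s).filter fun q => q.1 ≠ q.2)
    (fun q => {N | τ ≤ |LA (fun n => prodSeq (f q.1) H n * prodSeq (f q.2) H n) N|})
    (fun q hq => by
      obtain ⟨h1, h2⟩ := Finset.mem_filter.1 hq
      obtain ⟨h3, h4⟩ := Finset.mem_product.1 h1
      exact orth hw hW (hf q.1 h3) (hf q.2 h4) (hclose q.1 h3 q.2 h4) (hfar q.1 h3 q.2 h4 h2)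
        H hne τ hτ0)
  refine WD_tendsto_zero hw hW ?_ hpairs
  filter_upwards [hLA] with N hN hbad
  by_contra hcon
  simp only [not_exists, not_and, not_le] at hcon
  have hbad' : 1 + ε < ∑ i ∈ s, LA (prodSeq (f i) H) N ^ 2 := hbad
  have h1 := bessel_scale s (fun i => prodSeq (f i) H) (fun i _ n => abs_prodSeq _ _ _) N L τ hN
    hL1.le hτ0.le (fun i hi j hj hij => (hcon (i, j) (Finset.mem_filter.2
      ⟨Finset.mem_product.2 ⟨hi, hj⟩, hij⟩)).le)
  have h2 : L ^ 2 + L * (s.card : ℝ) ^ 2 * τ * L ^ 2 ≤ L ^ 2 + L ^ 3 * (L - 1) := by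
    have h3 : L * (s.card : ℝ) ^ 2 * τ * L ^ 2 = L ^ 3 * ((s.card : ℝ) ^ 2 * τ) := by ring
    rw [h3]
    have h4 : 0 ≤ L ^ 3 := by positivity
    have := mul_le_mul_of_nonneg_left hτ h4
    linarith
  linarith

end Pool.Agent.Lib.P4a7640T
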